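import Pool.Agent.Bloch.Gal6

/-! Algebraic extensions of the base field: lengths and dimensions. -/

set_option linter.unusedSectionVars false

open MvPolynomial TensorProduct

namespace Pool.Agent.Bloch

attribute [local instance] MvPolynomial.algebraMvPolynomial

section len
variable {A : Type} [CommRing A] [IsNoetherianRing A] {B : Type} [CommRing B] [Algebra A B]

/-- Lengths do not change under a flat extension in which the prime stays prime. -/
theorem len_bc [Module.Flat A B] (q : PrimeSpectrum A) (Q : PrimeSpectrum B)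
    (hQ : Q.asIdeal = q.asIdeal.map (algebraMap A B))
    (hc : ∀ a : A, algebraMap A B a ∈ Q.asIdeal → a ∈ q.asIdeal)
    (M : Type) [AddCommGroup M] [Module A M] (hM : Module.Finite A M)
    (h : ∀ p ∈ Module.support A M, p ≤ q → p = q) : len Q (B ⊗[A] M) = len q M := by
  revert h
  induction hM using IsNoetherianRing.induction_on_isQuotientEquivQuotientPrime A with
  | subsingleton N =>
    intro _
    have h1 : len q N = 0 := by
      rw [len_eq_zero_iff, Module.support_eq_empty]
      exact Set.notMem_empty _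
    have h2 : len Q (B ⊗[A] N) = 0 := by
      rw [len_eq_zero_iff, Module.support_eq_empty]
      exact Set.notMem_empty _
    rw [h1, h2]
  | quotient N p e =>
    intro h
    have e1 : (B ⊗[A] N) ≃ₗ[B] (B ⧸ p.asIdeal.map (algebraMap A B)) :=
      (LinearEquiv.baseChange A B _ _ e).trans
        (Algebra.TensorProduct.quotIdealMapEquivTensorQuot B p.asIdeal).toLinearEquiv.symm
    rw [len_congr Q e1, len_congr q e]
    by_cases hpq : p ≤ q
    · have hp : p ∈ Module.support A N := by
        rw [e.support_eq, support_quot]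
        exact le_refl p.asIdeal
      have := h p hp hpq
      subst this
      rw [len_quot_self, ← hQ, len_quot_self]
    · have h1 : len q (A ⧸ p.asIdeal) = 0 := by
        rw [len_eq_zero_iff, support_quot]
        exact hpq
      have h2 : len Q (B ⧸ p.asIdeal.map (algebraMap A B)) = 0 := by
        rw [len_eq_zero_iff, support_quot]
        intro h3
        apply hpq
        intro a ha
        exact hc a (h3 (Ideal.mem_map_of_mem _ ha))
      rw [h1, h2]
  | exact N₁ N₂ N₃ f g hf hg hfg h₁ h₃ =>
    intro h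
    have hs := Module.support_of_exact hfg hf hg
    have a1 := h₁ (fun q hq hqp => h q (by rw [hs]; exact Or.inl hq) hqp)
    have a3 := h₃ (fun q hq hqp => h q (by rw [hs]; exact Or.inr hq) hqp)
    rw [len_exact q f g hf hg hfg, ← a1, ← a3]
    refine len_exact Q (f.baseChange B) (g.baseChange B) ?_ ?_ ?_
    · rw [LinearMap.baseChange_eq_ltensor]
      exact Module.Flat.lTensor_preserves_injective_linearMap f hf
    · rw [LinearMap.baseChange_eq_ltensor]
      exact LinearMap.lTensor_surjective B hg
    · rw [LinearMap.baseChange_eq_ltensor, LinearMap.baseChange_eq_ltensor]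
      exact lTensor_exact B hfg hg

theorem len_bc_quot [Module.Flat A B] (q : PrimeSpectrum A) (Q : PrimeSpectrum B)
    (hQ : Q.asIdeal = q.asIdeal.map (algebraMap A B))
    (hc : ∀ a : A, algebraMap A B a ∈ Q.asIdeal → a ∈ q.asIdeal)
    (J : Ideal A) (J' : Ideal B) (hJ : J' = J.map (algebraMap A B))
    (h : ∀ p : PrimeSpectrum A, J ≤ p.asIdeal → p ≤ q → p = q) :
    len Q (B ⧸ J') = len q (A ⧸ J) := by
  subst hJ
  rw [← len_bc q Q hQ hc (A ⧸ J) inferInstance (by rw [support_quot]; exact h)]
  exact len_congr Q (Algebra.TensorProduct.quotIdealMapEquivTensorQuot B J).toLinearEquiv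

end len

section alg
variable {K : Type} [Field K] {Ω : Type} [Field Ω] [Algebra K Ω] [Algebra.IsAlgebraic K Ω]
  {σ : Type} [Fintype σ]

instance isInt_bc : Algebra.IsIntegral (MvPolynomial σ K) (MvPolynomial σ Ω) := by
  constructor
  intro f
  induction f using MvPolynomial.induction_on with
  | C a =>
    have h1 : IsIntegral K a := Algebra.IsIntegral.isIntegral a
    have h2 : IsIntegral K (C a : MvPolynomial σ Ω) :=
      h1.map (IsScalarTower.toAlgHom K Ω (MvPolynomial σ Ω))
    exact h2.tower_top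
  | add p q hp hq => exact hp.add hq
  | mul_X p s hp =>
    have h1 : (X s : MvPolynomial σ Ω) = algebraMap (MvPolynomial σ K) (MvPolynomial σ Ω) (X s) :=
      (map_X _ s).symm
    rw [h1]
    exact hp.mul isIntegral_algebraMap

/-- the contraction to the smaller field -/
noncomputable abbrev cm (K : Type) [Field K] {Ω : Type} [Field Ω] [Algebra K Ω] {σ : Type}
    (Q : PrimeSpectrum (MvPolynomial σ Ω)) : PrimeSpectrum (MvPolynomial σ K) :=
  ct K (A := MvPolynomial σ K) Q

theorem mem_cm (Q : PrimeSpectrum (MvPolynomial σ Ω)) (f : MvPolynomial σ K) :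
    f ∈ (cm K Q).asIdeal ↔ map (algebraMap K Ω) f ∈ Q.asIdeal := Iff.rfl

theorem dl_cm (Q : PrimeSpectrum (MvPolynomial σ Ω)) : dl K (cm K Q) = dl Ω Q := by
  have h1 : dl K (cm K Q) = dl K Q := by
    apply dl_ctr_eq_of_integral
    exact (inferInstance : Algebra.IsIntegral (MvPolynomial σ K) (MvPolynomial σ Ω)).isIntegral
  rw [h1]
  unfold dl td
  have h2 := _root_.trdeg_add_eq K Ω (A := MvPolynomial σ Ω ⧸ Q.asIdeal)
  have h3 : Algebra.trdeg K Ω = 0 := _root_.trdeg_eq_zero_iff.2 inferInstance
  rw [h3, zero_add] at h2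
  rw [← h2]

theorem hc_map (f : MvPolynomial σ K) (n : ℕ) :
    homogeneousComponent n (map (algebraMap K Ω) f) =
      map (algebraMap K Ω) (homogeneousComponent n f) := by
  classical
  ext m
  rw [coeff_homogeneousComponent, coeff_map, coeff_map, coeff_homogeneousComponent]
  split_ifs
  · rfl
  · rw [map_zero]

theorem homP_cm {Q : PrimeSpectrum (MvPolynomial σ Ω)} (hQ : HomP Q) : HomP (cm K Q) := by
  intro f hf n
  rw [mem_cm] at hf ⊢
  rw [← hc_map]
  exact hQ _ hf n

/-- homogeneous lying over -/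
theorem exists_over (V : PrimeSpectrum (MvPolynomial σ K)) (hV : HomP V) :
    ∃ Q : PrimeSpectrum (MvPolynomial σ Ω), HomP Q ∧ cm K Q = V := by
  obtain ⟨Q, hQ⟩ := Algebra.IsIntegral.comap_surjective (R := MvPolynomial σ K)
    (S := MvPolynomial σ Ω) V
  have h1 : ∀ g, g ∈ V.asIdeal ↔ map (algebraMap K Ω) g ∈ Q.asIdeal := by
    intro g
    rw [← hQ]
    rfl
  refine ⟨cone (K := Ω) (X : σ → MvPolynomial σ Ω) Q, homP_cone _ _, ?_⟩
  apply PrimeSpectrum.ext
  ext g
  rw [mem_cm, mem_core]
  constructor
  · intro h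
    rw [h1]
    exact mem_of_comp _ _ h
  · intro hg n
    have h2 := (h1 _).1 (hV g hg n)
    rw [hc_map]
    exact h2

/-- the prime `Q` is generated by polynomials over the smaller field -/
def Dfd (K : Type) [Field K] {Ω : Type} [Field Ω] [Algebra K Ω] {σ : Type}
    (Q : PrimeSpectrum (MvPolynomial σ Ω)) : Prop :=
  Q.asIdeal = (cm K Q).asIdeal.map (algebraMap (MvPolynomial σ K) (MvPolynomial σ Ω))

/-- a prime is the only prime over its contraction of the same dimension if it is defined over
the smaller field -/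
theorem eq_of_dfd {Q Q' : PrimeSpectrum (MvPolynomial σ Ω)} (h : Dfd K Q)
    (h' : cm K Q' = cm K Q) : Q' = Q := by
  symm
  apply eq_of_le_of_dl Ω
  · change Q.asIdeal ≤ Q'.asIdeal
    rw [h, Ideal.map_le_iff_le_comap, ← h']
    exact le_rfl
  · rw [← dl_cm (K := K) Q, ← dl_cm (K := K) Q', h']

instance flat_bc' : Module.Flat (MvPolynomial σ K) (MvPolynomial σ Ω) :=
  Module.Flat.isBaseChange K (MvPolynomial σ K) Ω (MvPolynomial σ Ω)
    (Algebra.IsPushout.out (R := K) (S := MvPolynomial σ K) (R' := Ω) (S' := MvPolynomial σ Ω))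

theorem len_dfd {Q W : PrimeSpectrum (MvPolynomial σ Ω)} (hQ : Dfd K Q) (hW : Dfd K W) {k : ℕ}
    (hdW : dl Ω W = k + 1) (hdQ : dl Ω Q = k) (f : MvPolynomial σ K)
    (hf : map (algebraMap K Ω) f ∉ W.asIdeal) :
    len Q (MvPolynomial σ Ω ⧸ (W.asIdeal ⊔ Ideal.span {map (algebraMap K Ω) f})) =
      len (cm K Q) (MvPolynomial σ K ⧸ ((cm K W).asIdeal ⊔ Ideal.span {f})) := by
  apply len_bc_quot (cm K Q) Q hQ (fun a ha => ha)
  · rw [Ideal.map_sup, ← hW, Ideal.map_span, Set.image_singleton]
    rfl
  · intro p hp hpq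
    apply eq_of_le_of_dl K hpq
    have h1 : cm K W ≤ p := (le_sup_left : _ ≤ (cm K W).asIdeal ⊔ Ideal.span {f}).trans hp
    have h2 : f ∈ p.asIdeal := hp (Ideal.mem_sup_right (Ideal.mem_span_singleton_self f))
    have h3 : cm K W ≠ p := by
      rintro h
      rw [← h] at h2
      exact hf h2
    have h4 := dl_lt K (lt_of_le_of_ne h1 h3)
    rw [dl_cm, hdW] at h4
    rw [dl_cm, hdQ]
    omega

end alg

end Pool.Agent.Bloch
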