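import Pool.Agent.Bloch.Pen.DescA

/-! Algebraic extensions of the base field: relations over a finite level. -/

set_option linter.unusedSectionVars false

open MvPolynomial

namespace Pool.Agent.Bloch

attribute [local instance] MvPolynomial.algebraMvPolynomial

section defs
variable {K : Type} [Field K] (𝕜 : Type) [Field 𝕜] [CharZero 𝕜] {σ : Type} [Fintype σ]

/-- the relations of coinvariants for a set of diagonal scalings -/
noncomputable def IGs (Z : Set (PrimeSpectrum (MvPolynomial σ K))) (k : ℕ) (Gm : Set (σ → K)) :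
    Submodule 𝕜 (VH Z k →₀ 𝕜) :=
  Submodule.span 𝕜 {w | ∃ c ∈ Gm, ∃ V V' : VH Z k, V'.1 = ctr K (scl K c) V.1 ∧
    w = Finsupp.single V' 1 - Finsupp.single V 1}

/-- rational equivalence and coinvariants -/
noncomputable def NN (Z : Set (PrimeSpectrum (MvPolynomial σ K))) (k : ℕ) (Gm : Set (σ → K)) :
    Submodule 𝕜 (VH Z k →₀ 𝕜) :=
  RelH 𝕜 Z k ⊔ IGs 𝕜 Z k Gm

/-- any two subvarieties are proportional modulo the relations -/
def PP (Z : Set (PrimeSpectrum (MvPolynomial σ K))) (k : ℕ) (Gm : Set (σ → K)) : Prop :=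
  ∀ V w : VH Z k, Finsupp.single V (1 : 𝕜) ∈
    NN 𝕜 Z k Gm ⊔ Submodule.span 𝕜 {Finsupp.single w (1 : 𝕜)}

theorem PP_iff (Z : Set (PrimeSpectrum (MvPolynomial σ K))) (k : ℕ) (Gm : Set (σ → K)) :
    PP 𝕜 Z k Gm ↔ ∀ V w : VH Z k, ∃ c : 𝕜,
      Finsupp.single V (1 : 𝕜) - c • Finsupp.single w (1 : 𝕜) ∈ NN 𝕜 Z k Gm := by
  constructor
  · intro h V w
    obtain ⟨x, hx, y, hy, hxy⟩ := Submodule.mem_sup.1 (h V w)
    obtain ⟨c, rfl⟩ := Submodule.mem_span_singleton.1 hy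
    refine ⟨c, ?_⟩
    rw [← hxy, add_sub_cancel_right]
    exact hx
  · intro h V w
    obtain ⟨c, hc⟩ := h V w
    rw [← sub_add_cancel (Finsupp.single V (1 : 𝕜)) (c • Finsupp.single w (1 : 𝕜))]
    exact Submodule.add_mem_sup hc (Submodule.smul_mem _ _ (Submodule.mem_span_singleton_self _))

end defs

section level
variable {K : Type} [Field K] {Ω : Type} [Field Ω] [Algebra K Ω] [Algebra.IsAlgebraic K Ω]
  {σ : Type} [Fintype σ] (𝕜 : Type) [Field 𝕜] [CharZero 𝕜]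
  {Z : Set (PrimeSpectrum (MvPolynomial σ K))} {Z' : Set (PrimeSpectrum (MvPolynomial σ Ω))}
  (hZ : ∀ Q, cm K Q ∈ Z ↔ Q ∈ Z')

/-- contraction of subvarieties to the smaller field -/
noncomputable def rV (k : ℕ) (V : VH Z' k) : VH Z k :=
  ⟨cm K V.1, homP_cm V.2.1, (hZ _).2 V.2.2.1, by rw [dl_cm]; exact V.2.2.2⟩

theorem rV_val (k : ℕ) (V : VH Z' k) : (rV hZ k V).1 = cm K V.1 := rfl

/-- contraction of cycles to the smaller field (it is meaningful for cycles whose components are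
defined over the smaller field) -/
noncomputable def Rs (k : ℕ) : (VH Z' k →₀ 𝕜) →ₗ[𝕜] (VH Z k →₀ 𝕜) :=
  Finsupp.lmapDomain 𝕜 𝕜 (rV hZ k)

theorem Rs_single (k : ℕ) (V : VH Z' k) (c : 𝕜) :
    Rs 𝕜 hZ k (Finsupp.single V c) = Finsupp.single (rV hZ k V) c := Finsupp.mapDomain_single

theorem Rs_apply_of_unique (k : ℕ) (D : VH Z' k →₀ 𝕜) (V₀ : VH Z' k)
    (h : ∀ V, rV hZ k V = rV hZ k V₀ → V = V₀) : Rs 𝕜 hZ k D (rV hZ k V₀) = D V₀ := by
  classical
  induction D using Finsupp.induction_linear with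
  | zero => simp
  | add x y hx hy => rw [map_add, Finsupp.add_apply, Finsupp.add_apply, hx, hy]
  | single V c =>
    rw [Rs_single, Finsupp.single_apply, Finsupp.single_apply]
    by_cases h1 : V = V₀
    · rw [if_pos h1, h1, if_pos rfl]
    · rw [if_neg h1, if_neg (fun h2 => h1 (h V h2))]

theorem Rs_apply_eq_zero (k : ℕ) (D : VH Z' k →₀ 𝕜) (q : VH Z k)
    (h : ∀ V, rV hZ k V = q → D V = 0) : Rs 𝕜 hZ k D q = 0 := by
  classical
  have h1 : Rs 𝕜 hZ k D = D.sum (fun V c => Finsupp.single (rV hZ k V) c) := rfl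
  rw [h1, Finsupp.sum, Finsupp.finsetSum_apply]
  apply Finset.sum_eq_zero
  intro V hV
  rw [Finsupp.single_apply, if_neg]
  intro h2
  exact (Finsupp.mem_support_iff.1 hV) (h V h2)

/-- Contraction of a divisor all of whose components are defined over the smaller field. -/
theorem Rs_div {k : ℕ} (W : VH Z' (k + 1))
    (hW : Dfd K W.1) (f : MvPolynomial σ K)
    (hf : map (algebraMap K Ω) f ∉ W.1.asIdeal)
    (hD : ∀ Q : PrimeSpectrum (MvPolynomial σ Ω), W.1 ≤ Q →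
      map (algebraMap K Ω) f ∈ Q.asIdeal → dl Ω Q = k → Dfd K Q) :
    Rs 𝕜 hZ k (res 𝕜 Z' k (divCyc Ω 𝕜 k W.1 (map (algebraMap K Ω) f))) =
      res 𝕜 Z k (divCyc K 𝕜 k (rV hZ (k + 1) W).1 f) := by
  have hfW : f ∉ (rV hZ (k + 1) W).1.asIdeal := hf
  ext q
  rw [res_apply]
  by_cases hq : (rV hZ (k + 1) W).1 ≤ q.1 ∧ f ∈ q.1.asIdeal
  · obtain ⟨Q, hQ1, hQ2⟩ := exists_over (Ω := Ω) q.1 q.2.1
    obtain ⟨V₀, hV₀⟩ : ∃ V₀ : VH Z' k, rV hZ k V₀ = q := by
      refine ⟨⟨Q, hQ1, (hZ Q).1 (by rw [hQ2]; exact q.2.2.1), ?_⟩, Subtype.ext hQ2⟩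
      rw [← dl_cm (K := K), hQ2]
      exact q.2.2.2
    subst hV₀
    have hle : W.1 ≤ V₀.1 := by
      change W.1.asIdeal ≤ V₀.1.asIdeal
      rw [hW, Ideal.map_le_iff_le_comap]
      exact hq.1
    have hV₀d : Dfd K V₀.1 := hD _ hle hq.2 V₀.2.2.2
    rw [Rs_apply_of_unique 𝕜 hZ k _ V₀ (fun V hV => Subtype.ext
      (eq_of_dfd hV₀d (congrArg Subtype.val hV))), res_apply,
      divCyc_apply Ω 𝕜 W.2.2.2 hf _ V₀.2.2.2,
      divCyc_apply K 𝕜 (rV hZ (k + 1) W).2.2.2 hfW _ (rV hZ k V₀).2.2.2]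
    rw [len_dfd hV₀d hW W.2.2.2 V₀.2.2.2 f hf]
    rfl
  · have h1 : divCyc K 𝕜 k (rV hZ (k + 1) W).1 f q.1 = 0 := by
      by_contra h2
      exact hq ((divCyc_ne_zero_iff K 𝕜 (rV hZ (k + 1) W).2.2.2 hfW q.1).1 h2).2
    rw [h1]
    apply Rs_apply_eq_zero
    rintro V rfl
    rw [res_apply]
    by_contra h2
    obtain ⟨_, h3, h4⟩ := (divCyc_ne_zero_iff Ω 𝕜 W.2.2.2 hf V.1).1 h2
    apply hq
    refine ⟨?_, h4⟩
    intro g hg
    exact h3 hg

end level

section fin
variable {L : Type} [Field L] {Ω : Type} [Field Ω] [Algebra L Ω] [Algebra.IsAlgebraic L Ω]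
  {σ : Type} [Fintype σ] (𝕜 : Type) [Field 𝕜] [CharZero 𝕜]

/-- a finite set of coefficients over which a prime is defined -/
theorem exists_coeffs (Q : PrimeSpectrum (MvPolynomial σ Ω)) :
    ∃ S : Set Ω, S.Finite ∧ ∀ K' : IntermediateField L Ω, S ⊆ K' → Dfd K' Q := by
  classical
  obtain ⟨s, hs⟩ := (isNoetherian_def.1 (inferInstance : IsNoetherianRing (MvPolynomial σ Ω)))
    Q.asIdeal
  refine ⟨⋃ g ∈ s, ((g.support.image fun m => coeff m g : Finset Ω) : Set Ω), ?_, ?_⟩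
  · exact s.finite_toSet.biUnion (fun g _ => Finset.finite_toSet _)
  · intro K' hK'
    unfold Dfd
    apply le_antisymm
    · rw [← hs, Submodule.span_le]
      intro g hg
      have h1 : ∀ m, ∃ c : K', (algebraMap K' Ω) c = coeff m g := by
        intro m
        by_cases hm : m ∈ g.support
        · have h2 : coeff m g ∈ K' := by
            apply hK'
            simp only [Set.mem_iUnion]
            exact ⟨g, hg, Finset.mem_coe.2 (Finset.mem_image.2 ⟨m, hm, rfl⟩)⟩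
          exact ⟨⟨coeff m g, h2⟩, rfl⟩
        · exact ⟨0, by rw [map_zero, notMem_support_iff.1 hm]⟩
      choose c hc using h1
      have h3 : map (algebraMap K' Ω) (∑ m ∈ g.support, monomial m (c m)) = g := by
        rw [map_sum]
        conv_rhs => rw [g.as_sum]
        apply Finset.sum_congr rfl
        intro m _
        rw [map_monomial, hc]
      have h4 : g ∈ Q.asIdeal := by
        rw [← hs]
        exact Submodule.subset_span hg
      have h5 : (∑ m ∈ g.support, monomial m (c m)) ∈ (cm K' Q).asIdeal := by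
        rw [mem_cm, h3]
        exact h4
      have h6 := Ideal.mem_map_of_mem (algebraMap (MvPolynomial σ K') (MvPolynomial σ Ω)) h5
      change map (algebraMap K' Ω) _ ∈ _ at h6
      rw [h3] at h6
      exact h6
    · rw [Ideal.map_le_iff_le_comap]
      exact le_rfl

/-- a finite set of coefficients over which a polynomial is defined -/
theorem exists_coeffs_poly (g : MvPolynomial σ Ω) :
    ∃ S : Set Ω, S.Finite ∧ ∀ K' : IntermediateField L Ω, S ⊆ K' →
      ∃ g' : MvPolynomial σ K', map (algebraMap K' Ω) g' = g := by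
  classical
  refine ⟨((g.support.image fun m => coeff m g : Finset Ω) : Set Ω), Finset.finite_toSet _, ?_⟩
  intro K' hK'
  have h1 : ∀ m, ∃ c : K', (algebraMap K' Ω) c = coeff m g := by
    intro m
    by_cases hm : m ∈ g.support
    · have h2 : coeff m g ∈ K' :=
        hK' (Finset.mem_coe.2 (Finset.mem_image.2 ⟨m, hm, rfl⟩))
      exact ⟨⟨coeff m g, h2⟩, rfl⟩
    · exact ⟨0, by rw [map_zero, notMem_support_iff.1 hm]⟩
  choose c hc using h1
  refine ⟨∑ m ∈ g.support, monomial m (c m), ?_⟩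
  rw [map_sum]
  conv_rhs => rw [g.as_sum]
  apply Finset.sum_congr rfl
  intro m _
  rw [map_monomial, hc]

theorem hom_of_map {K' : Type} [Field K'] [Algebra K' Ω] {g : MvPolynomial σ K'} {n : ℕ}
    (h : (map (algebraMap K' Ω) g).IsHomogeneous n) : g.IsHomogeneous n := by
  intro m hm
  apply h
  rw [coeff_map]
  intro h1
  exact hm ((map_eq_zero _).1 h1)

/-- the components of a divisor are defined over a finite set -/
theorem exists_coeffs_div {k : ℕ} (W : PrimeSpectrum (MvPolynomial σ Ω)) (hW : dl Ω W = k + 1)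
    (f : MvPolynomial σ Ω) (hf : f ∉ W.asIdeal) :
    ∃ S : Set Ω, S.Finite ∧ ∀ K' : IntermediateField L Ω, S ⊆ K' →
      ∀ Q : PrimeSpectrum (MvPolynomial σ Ω), W ≤ Q → f ∈ Q.asIdeal → dl Ω Q = k → Dfd K' Q := by
  classical
  choose S hS1 hS2 using fun Q : PrimeSpectrum (MvPolynomial σ Ω) =>
    exists_coeffs (L := L) Q
  refine ⟨⋃ Q ∈ (divCyc Ω ℚ k W f).support, S Q, ?_, ?_⟩
  · exact (divCyc Ω ℚ k W f).support.finite_toSet.biUnion (fun Q _ => hS1 Q)
  · intro K' hK' Q h1 h2 h3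
    apply hS2 Q K'
    refine Set.Subset.trans ?_ hK'
    intro x hx
    simp only [Set.mem_iUnion]
    refine ⟨Q, ?_, hx⟩
    rw [Finsupp.mem_support_iff]
    exact (divCyc_ne_zero_iff Ω ℚ hW hf Q).2 ⟨h3, h1, h2⟩

variable {Z : Set (PrimeSpectrum (MvPolynomial σ L))} {Z' : Set (PrimeSpectrum (MvPolynomial σ Ω))}
  (hZ : ∀ Q, cm L Q ∈ Z ↔ Q ∈ Z')

/-- the closed set over an intermediate field -/
def Zm (Z : Set (PrimeSpectrum (MvPolynomial σ L))) (K' : IntermediateField L Ω) :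
    Set (PrimeSpectrum (MvPolynomial σ K')) := {q | cm L q ∈ Z}

theorem cm_cm (K' : IntermediateField L Ω) (Q : PrimeSpectrum (MvPolynomial σ Ω)) :
    cm L (cm K' Q) = cm L Q := by
  apply PrimeSpectrum.ext
  ext f
  rw [mem_cm, mem_cm, mem_cm, map_map]
  rfl

include hZ in
theorem hZm (K' : IntermediateField L Ω) (Q : PrimeSpectrum (MvPolynomial σ Ω)) :
    cm K' Q ∈ Zm Z K' ↔ Q ∈ Z' := by
  change cm L (cm K' Q) ∈ Z ↔ _
  rw [cm_cm, hZ]

/-- A relation over the big field comes from a relation over a finite level. -/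
theorem exists_level {k : ℕ} (Gm : Set (σ → L))
    (y : VH Z' k →₀ 𝕜)
    (hy : y ∈ NN 𝕜 Z' k {c | ∃ c₀ ∈ Gm, c = fun s => algebraMap L Ω (c₀ s)}) :
    ∃ S : Set Ω, S.Finite ∧ ∀ K' : IntermediateField L Ω, S ⊆ K' →
      Rs 𝕜 (hZm hZ K') k y ∈
        NN 𝕜 (Zm Z K') k {c | ∃ c₀ ∈ Gm, c = fun s => algebraMap L K' (c₀ s)} := by
  unfold NN at hy
  obtain ⟨y₁, hy₁, y₂, hy₂, rfl⟩ := Submodule.mem_sup.1 hy
  have key1 : ∃ S : Set Ω, S.Finite ∧ ∀ K' : IntermediateField L Ω, S ⊆ K' →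
      Rs 𝕜 (hZm hZ K') k y₁ ∈ RelH 𝕜 (Zm Z K') k := by
    clear hy hy₂
    unfold RelH at hy₁
    induction hy₁ using Submodule.span_induction with
    | mem z hz =>
      obtain ⟨W, n, f, g, hf, hg, hfW, hgW, rfl⟩ := hz
      obtain ⟨S₁, hS₁, h1⟩ := exists_coeffs (L := L) W.1
      obtain ⟨S₂, hS₂, h2⟩ := exists_coeffs_poly (L := L) f
      obtain ⟨S₃, hS₃, h3⟩ := exists_coeffs_poly (L := L) g
      obtain ⟨S₄, hS₄, h4⟩ := exists_coeffs_div (L := L) W.1 W.2.2.2 f hfW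
      obtain ⟨S₅, hS₅, h5⟩ := exists_coeffs_div (L := L) W.1 W.2.2.2 g hgW
      refine ⟨S₁ ∪ (S₂ ∪ (S₃ ∪ (S₄ ∪ S₅))), hS₁.union (hS₂.union (hS₃.union (hS₄.union hS₅))), ?_⟩
      intro K' hK'
      rw [Set.union_subset_iff, Set.union_subset_iff, Set.union_subset_iff,
        Set.union_subset_iff] at hK'
      obtain ⟨c1, c2, c3, c4, c5⟩ := hK'
      obtain ⟨f', rfl⟩ := h2 K' c2
      obtain ⟨g', rfl⟩ := h3 K' c3
      refine Submodule.subset_span ⟨rV (hZm hZ K') (k + 1) W, n, f', g', hom_of_map hf,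
        hom_of_map hg, hfW, hgW, ?_⟩
      rw [map_sub, map_sub, map_sub,
        Rs_div 𝕜 (hZm hZ K') W (h1 K' c1) f' hfW (h4 K' c4),
        Rs_div 𝕜 (hZm hZ K') W (h1 K' c1) g' hgW (h5 K' c5)]
    | zero =>
      exact ⟨∅, Set.finite_empty, fun K' _ => by rw [map_zero]; exact Submodule.zero_mem _⟩
    | add x y _ _ hx hy =>
      obtain ⟨S₁, hS₁, h1⟩ := hx
      obtain ⟨S₂, hS₂, h2⟩ := hy
      refine ⟨S₁ ∪ S₂, hS₁.union hS₂, fun K' hK' => ?_⟩
      rw [Set.union_subset_iff] at hK'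
      rw [map_add]
      exact Submodule.add_mem _ (h1 K' hK'.1) (h2 K' hK'.2)
    | smul c x _ hx =>
      obtain ⟨S₁, hS₁, h1⟩ := hx
      refine ⟨S₁, hS₁, fun K' hK' => ?_⟩
      rw [map_smul]
      exact Submodule.smul_mem _ _ (h1 K' hK')
  have key2 : ∀ K' : IntermediateField L Ω, Rs 𝕜 (hZm hZ K') k y₂ ∈
      IGs 𝕜 (Zm Z K') k {c | ∃ c₀ ∈ Gm, c = fun s => algebraMap L K' (c₀ s)} := by
    intro K'
    clear hy hy₁ key1
    unfold IGs at hy₂
    induction hy₂ using Submodule.span_induction with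
    | mem z hz =>
      obtain ⟨_, ⟨c, hc, rfl⟩, V, V', hV, rfl⟩ := hz
      rw [map_sub, Rs_single, Rs_single]
      refine Submodule.subset_span ⟨_, ⟨c, hc, rfl⟩, rV (hZm hZ K') k V, rV (hZm hZ K') k V', ?_,
        rfl⟩
      rw [rV_val, rV_val, hV]
      apply PrimeSpectrum.ext
      ext f
      rw [mem_cm, mem_ctr, mem_ctr, mem_cm]
      have : scl Ω (fun s => algebraMap L Ω (c s)) (map (algebraMap K' Ω) f) =
          map (algebraMap K' Ω) (scl K' (fun s => algebraMap L K' (c s)) f) := by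
        ext m
        rw [scl_coeff, coeff_map, coeff_map, scl_coeff, map_mul]
        congr 1
        change (m.prod fun l e => algebraMap L Ω (c l) ^ e) =
          algebraMap K' Ω (m.prod fun l e => algebraMap L K' (c l) ^ e)
        rw [Finsupp.prod, Finsupp.prod, map_prod]
        apply Finset.prod_congr rfl
        intro l _
        rw [map_pow, ← IsScalarTower.algebraMap_apply L K' Ω]
      rw [this]
    | zero => rw [map_zero]; exact Submodule.zero_mem _
    | add x y _ _ hx hy => rw [map_add]; exact Submodule.add_mem _ hx hy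
    | smul c x _ hx => rw [map_smul]; exact Submodule.smul_mem _ _ hx
  obtain ⟨S, hS, h1⟩ := key1
  refine ⟨S, hS, fun K' hK' => ?_⟩
  rw [map_add]
  exact Submodule.add_mem_sup (h1 K' hK') (key2 K')

end fin

end Pool.Agent.Bloch
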