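import Pool.Agent.Bloch.Pen.DescB

/-! Descent of the proportionality of subvarieties along an algebraic extension. -/

set_option linter.unusedSectionVars false

open MvPolynomial

namespace Pool.Agent.Bloch

attribute [local instance] MvPolynomial.algebraMvPolynomial

section gal
variable {K : Type} [Field K] {K' : Type} [Field K'] [Algebra K K'] [FiniteDimensional K K']
  [IsGalois K K'] {σ : Type} [Fintype σ]
variable (𝕜 : Type) [Field 𝕜] [CharZero 𝕜]
variable {Z : Set (PrimeSpectrum (MvPolynomial σ K))} {Z' : Set (PrimeSpectrum (MvPolynomial σ K'))}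

/-- Finite Galois descent of all relations. -/
theorem NN_le_descN (hup' : ∀ p ∈ Z', ∀ q, p ≤ q → q ∈ Z') (hup : ∀ p ∈ Z, ∀ q, p ≤ q → q ∈ Z)
    (hZ : ∀ Q ∈ Z', ct K Q ∈ Z) (k : ℕ) (Gm : Set (σ → K)) (hG : ∀ c ∈ Gm, ∀ s, c s ≠ 0) :
    NN 𝕜 Z' k {c | ∃ c₀ ∈ Gm, c = fun s => algebraMap K K' (c₀ s)} ≤
      descN 𝕜 Z' k (NN 𝕜 Z k Gm) := by
  unfold NN
  apply sup_le
  · exact descN_rel 𝕜 hup' hup hZ _ le_sup_left
  · unfold IGs
    rw [Submodule.span_le]
    rintro z ⟨_, ⟨c, hc, rfl⟩, V, V', hV, rfl⟩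
    let V₁ : VH Z k := ⟨ct K V.1, by
      intro x hx n
      have h1 : algebraMap (MvPolynomial σ K) (MvPolynomial σ K') x ∈ V.1.asIdeal := hx
      have h2 := V.2.1 _ h1 n
      rw [bc_hc] at h2
      exact h2, hZ _ V.2.2.1, by rw [dl_ct, dl_K', V.2.2.2]⟩
    let V₂ : VH Z k := ⟨ct K V'.1, by
      intro x hx n
      have h1 : algebraMap (MvPolynomial σ K) (MvPolynomial σ K') x ∈ V'.1.asIdeal := hx
      have h2 := V'.2.1 _ h1 n
      rw [bc_hc] at h2
      exact h2, hZ _ V'.2.2.1, by rw [dl_ct, dl_K', V'.2.2.2]⟩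
    have h3 : V₂.1 = ctr K (scl K c) V₁.1 := by
      apply PrimeSpectrum.ext
      ext f
      change algebraMap (MvPolynomial σ K) (MvPolynomial σ K') f ∈ V'.1.asIdeal ↔
        algebraMap (MvPolynomial σ K) (MvPolynomial σ K') (scl K c f) ∈ V.1.asIdeal
      rw [hV, mem_ctr, scl_alg, scl_bc]
    have h4 := descN_scl 𝕜 (RelH 𝕜 Z k ⊔ Submodule.span 𝕜 {w | ∃ c ∈ Gm, ∃ V V' : VH Z k,
      V'.1 = ctr K (scl K c) V.1 ∧ w = Finsupp.single V' 1 - Finsupp.single V (1 : 𝕜)})
      c (hG c hc) V V' V₁ V₂ rfl hV h3 (1 : 𝕜) (by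
        rw [one_smul]
        exact Submodule.mem_sup_right (Submodule.subset_span ⟨c, hc, V₁, V₂, h3, rfl⟩))
    rw [one_smul] at h4
    exact h4

theorem descN_pair {k : ℕ} (N : Submodule 𝕜 (VH Z k →₀ 𝕜)) (V' w' : VH Z' k) (V w : VH Z k)
    (hV : V.1 = ct K V'.1) (hw : w.1 = ct K w'.1) (c : 𝕜)
    (h : Finsupp.single V' (1 : 𝕜) - c • Finsupp.single w' (1 : 𝕜) ∈ descN 𝕜 Z' k N) :
    ∃ c' : 𝕜, Finsupp.single V (1 : 𝕜) - c' • Finsupp.single w (1 : 𝕜) ∈ N := by
  rw [mem_descN] at h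
  obtain ⟨u, hu, h⟩ := h
  obtain ⟨c₁, hc₁, e1⟩ := avg_pb (K := K) 𝕜 V'.1
  obtain ⟨c₂, hc₂, e2⟩ := avg_pb (K := K) 𝕜 w'.1
  rw [map_sub, map_smul, emb_single, emb_single, map_sub, map_smul, e1, e2, ← hV, ← hw,
    ← map_smul, ← map_smul, ← map_smul, ← map_sub] at h
  have h3 := pb_inj 𝕜 h
  rw [← emb_single 𝕜 Z k, ← emb_single 𝕜 Z k, ← map_smul, ← map_smul, ← map_smul, ← map_sub] at h3
  have h4 := emb_inj 𝕜 Z k h3
  rw [h4] at hu
  refine ⟨c₁⁻¹ * c * c₂, ?_⟩
  have h5 := Submodule.smul_mem _ c₁⁻¹ hu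
  rwa [smul_sub, smul_smul, inv_mul_cancel₀ hc₁, one_smul, smul_smul, smul_smul] at h5

end gal

section alg
variable {L : Type} [Field L] [CharZero L] {Ω : Type} [Field Ω] [Algebra L Ω]
  [Algebra.IsAlgebraic L Ω] [IsAlgClosed Ω] {σ : Type} [Fintype σ]
  (𝕜 : Type) [Field 𝕜] [CharZero 𝕜]
  {Z : Set (PrimeSpectrum (MvPolynomial σ L))} {Z' : Set (PrimeSpectrum (MvPolynomial σ Ω))}

/-- If any two subvarieties are proportional over the algebraic closure, then any two subvarieties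
are proportional over the field itself. -/
theorem desc_alg (hup : ∀ p ∈ Z, ∀ q, p ≤ q → q ∈ Z) (hZ : ∀ Q, cm L Q ∈ Z ↔ Q ∈ Z') {k : ℕ}
    (Gm : Set (σ → L)) (hG : ∀ c ∈ Gm, ∀ s, c s ≠ 0)
    (h : PP 𝕜 Z' k {c | ∃ c₀ ∈ Gm, c = fun s => algebraMap L Ω (c₀ s)}) : PP 𝕜 Z k Gm := by
  rw [PP_iff] at h ⊢
  intro V w
  obtain ⟨QV, hQV1, hQV2⟩ := exists_over (Ω := Ω) V.1 V.2.1
  obtain ⟨Qw, hQw1, hQw2⟩ := exists_over (Ω := Ω) w.1 w.2.1
  let V' : VH Z' k := ⟨QV, hQV1, (hZ QV).1 (by rw [hQV2]; exact V.2.2.1), by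
    rw [← dl_cm (K := L), hQV2]; exact V.2.2.2⟩
  let w' : VH Z' k := ⟨Qw, hQw1, (hZ Qw).1 (by rw [hQw2]; exact w.2.2.1), by
    rw [← dl_cm (K := L), hQw2]; exact w.2.2.2⟩
  obtain ⟨c, hc⟩ := h V' w'
  obtain ⟨S, hS, hlev⟩ := exists_level 𝕜 hZ Gm _ hc
  have h2 : IsAlgClosure L Ω := ⟨inferInstance, inferInstance⟩
  have h3 : IsGalois L Ω := IsAlgClosure.isGalois L _
  have h5 : Finite S := hS.to_subtype
  let F := FiniteGaloisIntermediateField.adjoin L S
  have hF : S ⊆ F.toIntermediateField := FiniteGaloisIntermediateField.subset_adjoin L S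
  have : FiniteDimensional L F.toIntermediateField := F.finiteDimensional
  have : IsGalois L F.toIntermediateField := F.isGalois
  have h6 := hlev F.toIntermediateField hF
  have h7 := NN_le_descN (K := L) (K' := F.toIntermediateField) 𝕜 (Z := Z)
    (Z' := Zm Z F.toIntermediateField) (fun p hp q hpq => hup _ hp _ (ctr_mono L _ hpq)) hup
    (fun Q hQ => hQ) k Gm hG h6
  rw [map_sub, map_smul, Rs_single, Rs_single] at h7
  refine descN_pair 𝕜 _ _ _ V w ?_ ?_ c h7
  · change V.1 = cm L (cm F.toIntermediateField QV)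
    rw [cm_cm, hQV2]
  · change w.1 = cm L (cm F.toIntermediateField Qw)
    rw [cm_cm, hQw2]

end alg

open Cardinal in
/-- A field of characteristic zero of the cardinality of the continuum has an embedding in the
complex numbers which makes the complex numbers algebraic over it. -/
theorem exists_alg_hom (L : Type) [Field L] [CharZero L] (hL : #L = Cardinal.continuum) :
    ∃ i : L →+* ℂ, i.IsIntegral := by
  have : CharZero (AlgebraicClosure L) :=
    charZero_of_injective_algebraMap (algebraMap L (AlgebraicClosure L)).injective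
  have h1 : #(AlgebraicClosure L) = Cardinal.continuum := by
    apply le_antisymm
    · have h2 := Algebra.IsAlgebraic.cardinalMk_le_max L (AlgebraicClosure L)
      rw [hL, max_eq_left Cardinal.aleph0_le_continuum] at h2
      exact h2
    · rw [← hL]
      exact Cardinal.mk_le_of_injective (algebraMap L (AlgebraicClosure L)).injective
  obtain ⟨e⟩ := IsAlgClosed.ringEquiv_of_equiv_of_charZero (K := AlgebraicClosure L) (L := ℂ)
    (by rw [h1]; exact Cardinal.aleph0_lt_continuum)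
    (by
      rw [← Cardinal.eq, h1]
      exact Cardinal.mk_complex.symm)
  refine ⟨(e : AlgebraicClosure L →+* ℂ).comp (algebraMap L (AlgebraicClosure L)), ?_⟩
  refine RingHom.IsIntegral.trans _ _ ?_ ?_
  · exact (inferInstance : Algebra.IsIntegral L (AlgebraicClosure L)).isIntegral
  · exact RingHom.isIntegral_of_surjective _ e.surjective

open Cardinal in
theorem mk_ratFunc : #(FractionRing (Polynomial ℂ)) = Cardinal.continuum := by
  apply le_antisymm
  · have h1 : #(FractionRing (Polynomial ℂ)) ≤ #(Polynomial ℂ × Polynomial ℂ) := by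
      refine Cardinal.mk_le_of_surjective (f := fun p : Polynomial ℂ × Polynomial ℂ =>
        algebraMap _ (FractionRing (Polynomial ℂ)) p.1 /
          algebraMap _ (FractionRing (Polynomial ℂ)) p.2) ?_
      intro x
      obtain ⟨a, b, _, h⟩ := IsFractionRing.div_surjective (A := Polynomial ℂ) x
      exact ⟨(a, b), h⟩
    refine h1.trans ?_
    have h2 : #(Polynomial ℂ) ≤ Cardinal.continuum := by
      refine Polynomial.cardinalMk_le_max.trans ?_
      rw [Cardinal.mk_complex, max_eq_left Cardinal.aleph0_le_continuum]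
    rw [Cardinal.mk_prod, Cardinal.lift_id]
    refine (mul_le_mul' h2 h2).trans ?_
    rw [Cardinal.mul_eq_self Cardinal.aleph0_le_continuum]
  · rw [← Cardinal.mk_complex]
    exact Cardinal.mk_le_of_injective
      (algebraMap ℂ (FractionRing (Polynomial ℂ))).injective

end Pool.Agent.Bloch
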