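import Pool.Agent.H11.Sep.RH
import Pool.Agent.Bloch.Gal1
import Pool.Agent.Bloch.Grade2

/-! Prime filtrations of quotients of homogeneous ideals: definition, existence, lengths. -/

set_option linter.unusedSectionVars false

open MvPolynomial

namespace Pool.Agent.Bloch.Pen

open _root_.Pool.Agent.Bloch.Sep

attribute [local instance] MvPolynomial.gradedAlgebra

section basic
variable {K : Type} [Field K] {σ : Type} [Finite σ] (𝕜 : Type) [Field 𝕜] [CharZero 𝕜]

open Classical in
/-- the hyperplane section of a subvariety, by a variable -/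
noncomputable def Hc (k : ℕ) (q : PrimeSpectrum (MvPolynomial σ K)) :
    PrimeSpectrum (MvPolynomial σ K) →₀ 𝕜 :=
  if h : ∃ s, (X s : MvPolynomial σ K) ∉ q.asIdeal then divCyc K 𝕜 k q (X h.choose) else 0

open Classical in
/-- the contribution of a step of a filtration -/
noncomputable def vl (k j : ℕ) (q : PrimeSpectrum (MvPolynomial σ K)) :
    PrimeSpectrum (MvPolynomial σ K) →₀ 𝕜 :=
  if dl K q = k then Finsupp.single q 1
  else if dl K q = k + 1 then - ((j : 𝕜) • Hc 𝕜 k q) else 0

/-- a chain of homogeneous ideals from `A` to `B` with prime quotients, and its value -/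
inductive Val (XX : Set (PrimeSpectrum (MvPolynomial σ K))) (k s : ℕ) :
    Ideal (MvPolynomial σ K) → Ideal (MvPolynomial σ K) →
      (PrimeSpectrum (MvPolynomial σ K) →₀ 𝕜) → Prop
  | refl (A : Ideal (MvPolynomial σ K)) : Val XX k s A A 0
  | step {A B : Ideal (MvPolynomial σ K)} {x : MvPolynomial σ K} {e : ℕ}
      {q : PrimeSpectrum (MvPolynomial σ K)} {z : PrimeSpectrum (MvPolynomial σ K) →₀ 𝕜}
      (hx : x.IsHomogeneous e) (hq : ∀ r, r * x ∈ A ↔ r ∈ q.asIdeal) (hqX : q ∈ XX)
      (hd : dl K q ≤ k + 1) (h : Val XX k s (A ⊔ Ideal.span {x}) B z) :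
      Val XX k s A B (vl 𝕜 k (e + s) q + z)

variable {𝕜} {XX : Set (PrimeSpectrum (MvPolynomial σ K))} {k s : ℕ}
  {A B C : Ideal (MvPolynomial σ K)} {z z' : PrimeSpectrum (MvPolynomial σ K) →₀ 𝕜}

theorem Val.le (h : Val 𝕜 XX k s A B z) : A ≤ B := by
  induction h with
  | refl A => exact le_rfl
  | step hx hq hqX hd h ih => exact le_sup_left.trans ih

theorem Val.trans (h : Val 𝕜 XX k s A B z) (h' : Val 𝕜 XX k s B C z') :
    Val 𝕜 XX k s A C (z + z') := by
  induction h with
  | refl A => rwa [zero_add]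
  | step hx hq hqX hd h ih =>
    rw [add_assoc]
    exact Val.step hx hq hqX hd (ih h')

theorem Val.mono {XX' : Set (PrimeSpectrum (MvPolynomial σ K))} (hXX : XX ⊆ XX')
    (h : Val 𝕜 XX k s A B z) : Val 𝕜 XX' k s A B z := by
  induction h with
  | refl A => exact Val.refl A
  | step hx hq hqX hd h ih => exact Val.step hx hq (hXX hqX) hd ih

theorem homI_colon (hA : HomI A) {x : MvPolynomial σ K} {e : ℕ} (hx : x.IsHomogeneous e)
    {q : PrimeSpectrum (MvPolynomial σ K)} (hq : ∀ r, r * x ∈ A ↔ r ∈ q.asIdeal) : HomP q := by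
  intro f hf n
  rw [← hq] at hf ⊢
  rw [← hc_mul f x hx n]
  exact hA _ hf _

theorem homI_step (hA : HomI A) {x : MvPolynomial σ K} {e : ℕ} (hx : x.IsHomogeneous e) :
    HomI (A ⊔ Ideal.span {x}) := homI_sup hA (homI_span hx)

/-- all primes over the annihilator of `B / A` are in the closed set and of dimension `≤ m` -/
def Adm (XX : Set (PrimeSpectrum (MvPolynomial σ K))) (m : ℕ) (A B : Ideal (MvPolynomial σ K)) :
    Prop :=
  ∀ p : PrimeSpectrum (MvPolynomial σ K), (∀ r, (∀ x ∈ B, r * x ∈ A) → r ∈ p.asIdeal) →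
    p ∈ XX ∧ dl K p ≤ m

theorem Adm.mono {m : ℕ} {A' B' : Ideal (MvPolynomial σ K)} (h : Adm XX m A B) (h1 : A ≤ A')
    (h2 : B' ≤ B) : Adm XX m A' B' := by
  intro p hp
  apply h p
  intro r hr
  exact hp r (fun x hx => h1 (hr x (h2 hx)))

theorem Val.adm (hup : ∀ p ∈ XX, ∀ q, p ≤ q → q ∈ XX) (h : Val 𝕜 XX k s A B z) :
    Adm XX (k + 1) A B := by
  induction h with
  | refl A =>
    intro p hp
    exact absurd ((Ideal.eq_top_iff_one _).2 (hp 1 (fun x hx => by rwa [one_mul]))) p.2.ne_top
  | @step A B x e q z hx hq hqX hd h ih =>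
    intro p hp
    by_cases hqp : q ≤ p
    · exact ⟨hup q hqX p hqp, (dl_le K hqp).trans hd⟩
    · apply ih p
      intro t ht
      obtain ⟨r, hr, hrp⟩ := Set.not_subset.1 (fun h1 => hqp h1)
      have h2 : r * t ∈ p.asIdeal := by
        apply hp
        intro y hy
        obtain ⟨a, ha, b, hb, hab⟩ := Submodule.mem_sup.1 (ht y hy)
        obtain ⟨u, rfl⟩ := Ideal.mem_span_singleton'.1 hb
        rw [mul_assoc, ← hab, mul_add]
        apply Ideal.add_mem _ (Ideal.mul_mem_left _ _ ha)
        have h3 : r * (u * x) = u * (r * x) := by ring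
        rw [h3]
        exact Ideal.mul_mem_left _ _ ((hq r).2 hr)
      exact (p.2.mem_or_mem h2).resolve_left hrp

/-- Existence of a first step. -/
theorem exists_step (hA : HomI A) (hB : HomI B) (hAB : A ≤ B) (hne : A ≠ B) :
    ∃ (x : MvPolynomial σ K) (e : ℕ) (q : PrimeSpectrum (MvPolynomial σ K)), x ∈ B ∧
      x.IsHomogeneous e ∧ x ∉ A ∧ ∀ r, r * x ∈ A ↔ r ∈ q.asIdeal := by
  classical
  let col : MvPolynomial σ K → Ideal (MvPolynomial σ K) := fun x =>
    { carrier := {r | r * x ∈ A}
      add_mem' := by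
        intro a b ha hb
        change (a + b) * x ∈ A
        rw [add_mul]
        exact A.add_mem ha hb
      zero_mem' := by
        change 0 * x ∈ A
        rw [zero_mul]
        exact A.zero_mem
      smul_mem' := by
        intro c r hr
        change (c * r) * x ∈ A
        rw [mul_assoc]
        exact A.mul_mem_left _ hr }
  have hcol : ∀ x r, r ∈ col x ↔ r * x ∈ A := fun x r => Iff.rfl
  let T : Set (Ideal (MvPolynomial σ K)) :=
    {I | ∃ x e, x ∈ B ∧ x.IsHomogeneous e ∧ x ∉ A ∧ I = col x}
  have hT : T.Nonempty := by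
    obtain ⟨y, hyB, hyA⟩ := Set.not_subset.1 (fun h => hne (le_antisymm hAB h))
    obtain ⟨n, hn⟩ : ∃ n, homogeneousComponent n y ∉ A := by
      by_contra hc
      push Not at hc
      exact hyA (mem_of_comp _ _ hc)
    exact ⟨_, homogeneousComponent n y, n, hB y hyB n, homogeneousComponent_isHomogeneous _ _, hn,
      rfl⟩
  obtain ⟨I, ⟨x, e, hxB, hx, hxA, rfl⟩, hmax⟩ :=
    set_has_maximal_iff_noetherian.2 (inferInstance : IsNoetherianRing (MvPolynomial σ K)) T hT
  have hhom : (col x).IsHomogeneous (homogeneousSubmodule σ K) := by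
    intro i r hr
    rw [hcol] at hr
    have h1 : homogeneousComponent i r * x ∈ A := by
      rw [← hc_mul r x hx i]
      exact hA _ hr _
    have h2 : ((DirectSum.decompose (homogeneousSubmodule σ K) r i :
        homogeneousSubmodule σ K i) : MvPolynomial σ K) = homogeneousComponent i r :=
      decomposition.decompose'_apply r i
    rw [h2]
    exact h1
  have hprime : (col x).IsPrime := by
    refine hhom.isPrime_of_homogeneous_mem_or_mem ?_ ?_
    · intro h
      apply hxA
      have h1 : (1 : MvPolynomial σ K) ∈ col x := by rw [h]; exact Submodule.mem_top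
      rw [hcol, one_mul] at h1
      exact h1
    · rintro a b ⟨i, ha⟩ ⟨j, hb⟩ hab
      by_cases hbx : b ∈ col x
      · exact Or.inr hbx
      · left
        have hbx' : b * x ∉ A := hbx
        have hb' : b.IsHomogeneous j := hb
        have h1 : col x ≤ col (b * x) := by
          intro r hr
          rw [hcol] at hr ⊢
          have : r * (b * x) = b * (r * x) := by ring
          rw [this]
          exact A.mul_mem_left _ hr
        have h2 : ¬ col x < col (b * x) :=
          hmax _ ⟨b * x, j + e, B.mul_mem_left _ hxB, hb'.mul hx, hbx', rfl⟩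
        have h3 : col x = col (b * x) := by
          by_contra h4
          exact h2 (lt_of_le_of_ne h1 h4)
        rw [h3, hcol, ← mul_assoc]
        exact hab
  exact ⟨x, e, ⟨col x, hprime⟩, hxB, hx, hxA, fun r => Iff.rfl⟩

/-- Existence of chains. -/
theorem exists_val (𝕜 : Type) [Field 𝕜] [CharZero 𝕜] (s : ℕ) (hB : HomI B)
    (A : Ideal (MvPolynomial σ K)) (hA : HomI A) (hAB : A ≤ B) (had : Adm XX (k + 1) A B) :
    ∃ z, Val 𝕜 XX k s A B z := by
  induction A using WellFoundedGT.induction with
  | ind A ih =>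
    by_cases hne : A = B
    · subst hne
      exact ⟨0, Val.refl A⟩
    · obtain ⟨x, e, q, hxB, hx, hxA, hq⟩ := exists_step hA hB hAB hne
      have h1 : A < A ⊔ Ideal.span {x} := by
        apply lt_of_le_of_ne le_sup_left
        intro h
        apply hxA
        rw [h]
        exact Ideal.mem_sup_right (Ideal.mem_span_singleton_self x)
      have h2 : A ⊔ Ideal.span {x} ≤ B := by
        rw [sup_le_iff, Ideal.span_singleton_le_iff_mem]
        exact ⟨hAB, hxB⟩
      obtain ⟨z, hz⟩ := ih _ h1 (homI_step hA hx) h2 (had.mono h1.le le_rfl)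
      have h3 := had q (fun r hr => (hq r).1 (hr x hxB))
      exact ⟨_, Val.step hx hq h3.1 h3.2 hz⟩

end basic

section lengths
variable {R : Type} [CommRing R]

/-- the quotient of two ideals -/
abbrev Qt (A B : Ideal R) : Type := ↥B ⧸ (Submodule.comap (Submodule.subtype B) A)

theorem len_qt_refl (p : PrimeSpectrum R) (A : Ideal R) : len p (Qt A A) = 0 := by
  rw [len_eq_zero_iff, Module.support_eq_empty_iff.2]
  · exact Set.notMem_empty _
  · constructor
    intro a b
    obtain ⟨a, rfl⟩ := Submodule.Quotient.mk_surjective _ a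
    obtain ⟨b, rfl⟩ := Submodule.Quotient.mk_surjective _ b
    rw [Submodule.Quotient.eq]
    exact (a - b).2

theorem len_qt_add (p : PrimeSpectrum R) {A A' B : Ideal R} (h1 : A ≤ A') (h2 : A' ≤ B) :
    len p (Qt A B) = len p (Qt A A') + len p (Qt A' B) := by
  refine len_exact p (Submodule.mapQ _ _ (Submodule.inclusion h2) ?_)
    (Submodule.mapQ _ _ LinearMap.id ?_) ?_ ?_ ?_
  · intro x hx
    exact hx
  · intro x hx
    exact h1 hx
  · rw [injective_iff_map_eq_zero]
    intro x hx
    obtain ⟨x, rfl⟩ := Submodule.Quotient.mk_surjective _ x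
    rw [Submodule.mapQ_apply, Submodule.Quotient.mk_eq_zero] at hx
    rw [Submodule.Quotient.mk_eq_zero]
    exact hx
  · intro y
    obtain ⟨y, rfl⟩ := Submodule.Quotient.mk_surjective _ y
    exact ⟨Submodule.Quotient.mk y, rfl⟩
  · intro y
    obtain ⟨y, rfl⟩ := Submodule.Quotient.mk_surjective _ y
    rw [Submodule.mapQ_apply, Submodule.Quotient.mk_eq_zero]
    constructor
    · intro h
      exact ⟨Submodule.Quotient.mk ⟨y.1, h⟩, rfl⟩
    · rintro ⟨x, hx⟩
      obtain ⟨x, rfl⟩ := Submodule.Quotient.mk_surjective _ x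
      rw [Submodule.mapQ_apply, Submodule.Quotient.eq] at hx
      change x.1 - y.1 ∈ A at hx
      have h3 : y.1 = x.1 - (x.1 - y.1) := by ring
      change y.1 ∈ A'
      rw [h3]
      exact A'.sub_mem x.2 (h1 hx)

theorem len_qt_step (p : PrimeSpectrum R) (A J : Ideal R) (x : R)
    (h : ∀ r, r * x ∈ A ↔ r ∈ J) : len p (Qt A (A ⊔ Ideal.span {x})) = len p (R ⧸ J) := by
  have hx : x ∈ A ⊔ Ideal.span {x} := Ideal.mem_sup_right (Ideal.mem_span_singleton_self x)
  let g : R →ₗ[R] Qt A (A ⊔ Ideal.span {x}) :=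
    (Submodule.mkQ _) ∘ₗ (LinearMap.toSpanSingleton R _ ⟨x, hx⟩)
  have hg : Function.Surjective g := by
    intro y
    obtain ⟨⟨y, hy⟩, rfl⟩ := Submodule.Quotient.mk_surjective _ y
    obtain ⟨a, ha, b, hb, hab⟩ := Submodule.mem_sup.1 hy
    obtain ⟨u, rfl⟩ := Ideal.mem_span_singleton'.1 hb
    refine ⟨u, ?_⟩
    change Submodule.Quotient.mk _ = _
    rw [Submodule.Quotient.eq]
    change u * x - y ∈ A
    rw [← hab]
    have : u * x - (a + u * x) = -a := by ring
    rw [this]
    exact A.neg_mem ha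
  have hk : LinearMap.ker g = J := by
    ext r
    rw [LinearMap.mem_ker]
    change (Submodule.Quotient.mk _ : Qt A (A ⊔ Ideal.span {x})) = 0 ↔ _
    rw [Submodule.Quotient.mk_eq_zero, ← h r]
    exact Iff.rfl
  exact (len_congr p ((Submodule.quotEquivOfEq _ _ hk.symm).trans
    (g.quotKerEquivOfSurjective hg))).symm

end lengths

section vallen
variable {K : Type} [Field K] {σ : Type} [Finite σ] {𝕜 : Type} [Field 𝕜] [CharZero 𝕜]
  {XX : Set (PrimeSpectrum (MvPolynomial σ K))} {k s : ℕ}
  {A B C : Ideal (MvPolynomial σ K)} {z z' : PrimeSpectrum (MvPolynomial σ K) →₀ 𝕜}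

/-- The value of a chain in dimension `≤ k` is the cycle of the quotient. -/
theorem Val.len_eq (h : Val 𝕜 XX k s A B z) {Y : Set (PrimeSpectrum (MvPolynomial σ K))}
    (had : Adm Y k A B) (V : PrimeSpectrum (MvPolynomial σ K)) (hV : dl K V = k) :
    len V (Qt A B) ≠ ⊤ ∧ z V = ((len V (Qt A B)).toNat : 𝕜) := by
  classical
  induction h with
  | refl A =>
    rw [len_qt_refl]
    exact ⟨ENat.zero_ne_top, by simp⟩
  | @step A B x e q z hx hq hqX hd h ih =>
    have hle := h.le
    have hxB : x ∈ B := hle (Ideal.mem_sup_right (Ideal.mem_span_singleton_self x))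
    obtain ⟨ih1, ih2⟩ := ih (had.mono le_sup_left le_rfl)
    have hqk : dl K q ≤ k := (had q (fun r hr => (hq r).1 (hr x hxB))).2
    have h1 := len_qt_add V (le_sup_left : A ≤ A ⊔ Ideal.span {x}) hle
    rw [len_qt_step V A q.asIdeal x hq] at h1
    have h2 : len V (MvPolynomial σ K ⧸ q.asIdeal) = if q = V then 1 else 0 := by
      split_ifs with h3
      · rw [← h3, len_quot_self]
      · rw [len_eq_zero_iff, support_quot]
        intro h4
        exact h3 (eq_of_le_of_dl K h4 (by rw [hV]; exact hqk))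
    have h3 : (vl 𝕜 k (e + s) q) V = if q = V then 1 else 0 := by
      unfold vl
      by_cases h4 : dl K q = k
      · rw [if_pos h4, Finsupp.single_apply]
      · rw [if_neg h4, if_neg (by omega), if_neg]
        · rfl
        · rintro rfl
          exact h4 hV
    rw [h1, h2, Finsupp.add_apply, h3, ih2]
    split_ifs
    · refine ⟨by rw [ne_eq, ENat.add_eq_top, not_or]; exact ⟨ENat.one_ne_top, ih1⟩, ?_⟩
      rw [ENat.toNat_add ENat.one_ne_top ih1]
      push_cast
      simp
    · rw [zero_add, zero_add]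
      exact ⟨ih1, rfl⟩

/-- The value of a chain in dimension `< k` is zero. -/
theorem Val.eq_zero (h : Val 𝕜 XX k s A B z)
    (had : ∀ p : PrimeSpectrum (MvPolynomial σ K), (∀ r, (∀ x ∈ B, r * x ∈ A) → r ∈ p.asIdeal) →
      dl K p < k) : z = 0 := by
  induction h with
  | refl A => rfl
  | @step A B x e q z hx hq hqX hd h ih =>
    have hxB : x ∈ B := h.le (Ideal.mem_sup_right (Ideal.mem_span_singleton_self x))
    have hqk : dl K q < k := had q (fun r hr => (hq r).1 (hr x hxB))
    rw [ih (fun p hp => had p (fun r hr => hp r (fun y hy => Ideal.mem_sup_left (hr y hy)))),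
      add_zero]
    unfold vl
    rw [if_neg (by omega), if_neg (by omega)]

theorem Hc_supp {q p : PrimeSpectrum (MvPolynomial σ K)} (hq : dl K q = k + 1)
    (h : Hc 𝕜 k q p ≠ 0) : dl K p = k ∧ q ≤ p := by
  unfold Hc at h
  split_ifs at h with h1
  · have h2 := (divCyc_ne_zero_iff K 𝕜 hq h1.choose_spec p).1 h
    exact ⟨h2.1, h2.2.1⟩
  · exact absurd rfl h

theorem Val.supp (h : Val 𝕜 XX k s A B z) (p : PrimeSpectrum (MvPolynomial σ K))
    (hp : z p ≠ 0) : dl K p = k := by
  classical
  induction h with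
  | refl A => exact absurd rfl hp
  | @step A B x e q z hx hq hqX hd h ih =>
    by_cases hz : z p = 0
    · rw [Finsupp.add_apply, hz, add_zero] at hp
      unfold vl at hp
      split_ifs at hp with h1 h2
      · rw [Finsupp.single_apply] at hp
        split_ifs at hp with h3
        · rw [← h3]; exact h1
        · exact absurd rfl hp
      · rw [Finsupp.neg_apply, Finsupp.smul_apply, neg_ne_zero, smul_eq_mul] at hp
        exact (Hc_supp h2 (right_ne_zero_of_mul hp)).1
      · exact absurd rfl hp
    · exact ih hz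

end vallen

end Pool.Agent.Bloch.Pen
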