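import Pool.Agent.Bloch.Pen.ValA
import Pool.Agent.Bloch.Gal4

/-! The value of a chain does not depend on the chain, modulo rational equivalence. -/

set_option linter.unusedSectionVars false

open MvPolynomial

namespace Pool.Agent.Bloch.Pen

open _root_.Pool.Agent.Bloch.Sep

variable {K : Type} [Field K] {σ : Type} [Finite σ] {𝕜 : Type} [Field 𝕜] [CharZero 𝕜]
  {XX : Set (PrimeSpectrum (MvPolynomial σ K))} {k s : ℕ}
  {A B C : Ideal (MvPolynomial σ K)} {z z' : PrimeSpectrum (MvPolynomial σ K) →₀ 𝕜}

/-- the divisor of a form and the hyperplane section -/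
theorem div_Hc {q : PrimeSpectrum (MvPolynomial σ K)} (hq : HomP q) (hqX : q ∈ XX)
    (hd : dl K q = k + 1) {r : MvPolynomial σ K} {i : ℕ} (hr : r.IsHomogeneous i)
    (hrq : r ∉ q.asIdeal) : divCyc K 𝕜 k q r - (i : 𝕜) • Hc 𝕜 k q ∈ RH 𝕜 k XX := by
  have h : ∃ s, (X s : MvPolynomial σ K) ∉ q.asIdeal := by
    by_contra hc
    push Not at hc
    rw [dl_vars K q hc] at hd
    omega
  have h1 : Hc 𝕜 k q = divCyc K 𝕜 k q (X h.choose) := by
    unfold Hc
    rw [dif_pos h]
  have h2 := h.choose_spec
  rw [h1]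
  generalize h.choose = t at h2
  have h3 : ∀ n : ℕ, divCyc K 𝕜 k q ((X t : MvPolynomial σ K) ^ n) =
      (n : 𝕜) • divCyc K 𝕜 k q (X t) := by
    intro n
    induction n with
    | zero => rw [pow_zero, divCyc_one]; simp
    | succ n ih =>
      rw [pow_succ, divCyc_mul K 𝕜 hd (fun hh => h2 (q.2.mem_of_pow_mem _ hh)) h2, ih]
      push_cast
      rw [add_smul, one_smul]
  rw [← h3]
  apply mem_RH 𝕜 hqX hq hd hr _ hrq (fun hh => h2 (q.2.mem_of_pow_mem _ hh))
  have h4 := (isHomogeneous_X K t).pow i
  rwa [one_mul] at h4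

theorem pair_mem {x r : MvPolynomial σ K} {q : PrimeSpectrum (MvPolynomial σ K)}
    (hq : ∀ t, t * x ∈ A ↔ t ∈ q.asIdeal) {p : PrimeSpectrum (MvPolynomial σ K)}
    (hp : ∀ t, (∀ y ∈ A ⊔ Ideal.span {x}, t * y ∈ A ⊔ Ideal.span {r * x}) → t ∈ p.asIdeal) :
    q ≤ p ∧ r ∈ p.asIdeal := by
  constructor
  · intro t ht
    apply hp
    intro y hy
    obtain ⟨a, ha, b, hb, rfl⟩ := Submodule.mem_sup.1 hy
    obtain ⟨u, rfl⟩ := Ideal.mem_span_singleton'.1 hb
    apply Ideal.mem_sup_left
    have : t * (a + u * x) = t * a + u * (t * x) := by ring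
    rw [this]
    exact A.add_mem (A.mul_mem_left _ ha) (A.mul_mem_left _ ((hq t).2 ht))
  · apply hp
    intro y hy
    obtain ⟨a, ha, b, hb, rfl⟩ := Submodule.mem_sup.1 hy
    obtain ⟨u, rfl⟩ := Ideal.mem_span_singleton'.1 hb
    have : r * (a + u * x) = r * a + u * (r * x) := by ring
    rw [this]
    exact Submodule.add_mem_sup (A.mul_mem_left _ ha)
      (Ideal.mem_span_singleton'.2 ⟨u, rfl⟩)

theorem pair_lt {x r : MvPolynomial σ K} {q : PrimeSpectrum (MvPolynomial σ K)}
    (hq : ∀ t, t * x ∈ A ↔ t ∈ q.asIdeal) (hrq : r ∉ q.asIdeal)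
    {p : PrimeSpectrum (MvPolynomial σ K)}
    (hp : ∀ t, (∀ y ∈ A ⊔ Ideal.span {x}, t * y ∈ A ⊔ Ideal.span {r * x}) → t ∈ p.asIdeal) :
    dl K p < dl K q := by
  obtain ⟨h1, h2⟩ := pair_mem hq hp
  apply dl_lt K (lt_of_le_of_ne h1 _)
  rintro rfl
  exact hrq h2

theorem Val.eq_div {x r : MvPolynomial σ K} {q : PrimeSpectrum (MvPolynomial σ K)}
    (hq : ∀ t, t * x ∈ A ↔ t ∈ q.asIdeal) (hd : dl K q = k + 1) (hrq : r ∉ q.asIdeal)
    (h : Val 𝕜 XX k s (A ⊔ Ideal.span {r * x}) (A ⊔ Ideal.span {x}) z) :
    z = divCyc K 𝕜 k q r := by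
  classical
  have had : Adm Set.univ k (A ⊔ Ideal.span {r * x}) (A ⊔ Ideal.span {x}) := by
    intro p hp
    refine ⟨Set.mem_univ _, ?_⟩
    have := pair_lt hq hrq hp
    omega
  ext V
  unfold divCyc
  rw [cyc_apply K 𝕜 (bd_div K hd hrq)]
  split_ifs with hV
  · rw [(h.len_eq had V hV).2]
    have h1 := len_qt_step V (A ⊔ Ideal.span {r * x}) (q.asIdeal ⊔ Ideal.span {r}) x (by
      intro t
      constructor
      · intro ht
        obtain ⟨a, ha, b, hb, hab⟩ := Submodule.mem_sup.1 ht
        obtain ⟨u, rfl⟩ := Ideal.mem_span_singleton'.1 hb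
        have h2 : (t - u * r) * x ∈ A := by
          have : (t - u * r) * x = a := by linear_combination -hab
          rw [this]
          exact ha
        rw [hq] at h2
        have : t = (t - u * r) + u * r := by ring
        rw [this]
        exact Submodule.add_mem_sup h2 (Ideal.mem_span_singleton'.2 ⟨u, rfl⟩)
      · intro ht
        obtain ⟨a, ha, b, hb, rfl⟩ := Submodule.mem_sup.1 ht
        obtain ⟨u, rfl⟩ := Ideal.mem_span_singleton'.1 hb
        have : (a + u * r) * x = a * x + u * (r * x) := by ring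
        rw [this]
        exact Submodule.add_mem_sup ((hq a).2 ha) (Ideal.mem_span_singleton'.2 ⟨u, rfl⟩))
    have h3 : A ⊔ Ideal.span {r * x} ⊔ Ideal.span {x} = A ⊔ Ideal.span {x} := by
      apply le_antisymm
      · refine sup_le (sup_le le_sup_left ?_) le_sup_right
        rw [Ideal.span_singleton_le_iff_mem]
        exact Ideal.mem_sup_right (Ideal.mem_span_singleton'.2 ⟨r, rfl⟩)
      · exact sup_le (le_sup_left.trans le_sup_left) le_sup_right
    rw [h3] at h1
    rw [h1]
  · by_contra hz
    exact hV (h.supp V hz)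

theorem Val.eq_zero' {x r : MvPolynomial σ K} {q : PrimeSpectrum (MvPolynomial σ K)}
    (hq : ∀ t, t * x ∈ A ↔ t ∈ q.asIdeal) (hd : dl K q ≤ k) (hrq : r ∉ q.asIdeal)
    (h : Val 𝕜 XX k s (A ⊔ Ideal.span {r * x}) (A ⊔ Ideal.span {x}) z) : z = 0 := by
  apply h.eq_zero
  intro p hp
  have := pair_lt hq hrq hp
  omega

/-- passing from a generator `x` to a multiple `w` of it -/
theorem compare (hup : ∀ p ∈ XX, ∀ q, p ≤ q → q ∈ XX) (hA : HomI A)
    {x w r : MvPolynomial σ K} {e n i : ℕ} {q : PrimeSpectrum (MvPolynomial σ K)}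
    (hx : x.IsHomogeneous e) (hr : r.IsHomogeneous i) (hn : i + e = n)
    (hw : w - r * x ∈ A) (hq : ∀ t, t * x ∈ A ↔ t ∈ q.asIdeal) (hqX : q ∈ XX)
    (hd : dl K q ≤ k + 1) (hrq : r ∉ q.asIdeal)
    {z1 zw : PrimeSpectrum (MvPolynomial σ K) →₀ 𝕜}
    (h1 : Val 𝕜 XX k s (A ⊔ Ideal.span {x}) B z1)
    (hzw : Val 𝕜 XX k s (A ⊔ Ideal.span {w}) B zw)
    (IH : ∀ z z', Val 𝕜 XX k s (A ⊔ Ideal.span {w}) B z →
      Val 𝕜 XX k s (A ⊔ Ideal.span {w}) B z' → z - z' ∈ RH 𝕜 k XX) :
    (vl 𝕜 k (e + s) q + z1) - (vl 𝕜 k (n + s) q + zw) ∈ RH 𝕜 k XX := by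
  classical
  have hAw : A ⊔ Ideal.span {w} = A ⊔ Ideal.span {r * x} := by
    apply le_antisymm
    · refine sup_le le_sup_left ?_
      rw [Ideal.span_singleton_le_iff_mem]
      have : w = (w - r * x) + r * x := by ring
      rw [this]
      exact Submodule.add_mem_sup hw (Ideal.mem_span_singleton_self _)
    · refine sup_le le_sup_left ?_
      rw [Ideal.span_singleton_le_iff_mem]
      have : r * x = -(w - r * x) + w := by ring
      rw [this]
      exact Submodule.add_mem_sup (A.neg_mem hw) (Ideal.mem_span_singleton_self _)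
  have hqh : HomP q := homI_colon hA hx hq
  have hle : A ⊔ Ideal.span {r * x} ≤ A ⊔ Ideal.span {x} := by
    refine sup_le le_sup_left ?_
    rw [Ideal.span_singleton_le_iff_mem]
    exact Ideal.mem_sup_right (Ideal.mem_span_singleton'.2 ⟨r, rfl⟩)
  obtain ⟨z3, hz3⟩ := exists_val (XX := XX) (k := k) 𝕜 s (homI_step hA hx)
    (A ⊔ Ideal.span {r * x}) (homI_step hA (hr.mul hx)) hle (by
      intro p hp
      obtain ⟨h2, h3⟩ := pair_mem hq hp
      exact ⟨hup q hqX p h2, (dl_le K h2).trans hd⟩)
  have h4 := IH (z3 + z1) zw (by rw [hAw]; exact hz3.trans h1) hzw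
  by_cases hdq : dl K q = k + 1
  · have h5 : z3 = divCyc K 𝕜 k q r := hz3.eq_div hq hdq hrq
    have h6 := div_Hc (𝕜 := 𝕜) hqh hqX hdq hr hrq
    have h7 : vl 𝕜 k (e + s) q = - (((e + s : ℕ) : 𝕜) • Hc 𝕜 k q) := by
      unfold vl
      rw [if_neg (by omega), if_pos hdq]
    have h8 : vl 𝕜 k (n + s) q = - (((n + s : ℕ) : 𝕜) • Hc 𝕜 k q) := by
      unfold vl
      rw [if_neg (by omega), if_pos hdq]
    have h9 : (vl 𝕜 k (e + s) q + z1) - (vl 𝕜 k (n + s) q + zw) =
        (z3 + z1 - zw) - (divCyc K 𝕜 k q r - (i : 𝕜) • Hc 𝕜 k q) := by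
      rw [h7, h8, h5, ← hn]
      push_cast
      module
    rw [h9]
    exact Submodule.sub_mem _ h4 h6
  · have h5 : z3 = 0 := hz3.eq_zero' hq (by omega) hrq
    have h6 : vl 𝕜 k (e + s) q = vl 𝕜 k (n + s) q := by
      unfold vl
      rw [if_neg hdq, if_neg hdq]
    rw [h5, zero_add] at h4
    have h9 : (vl 𝕜 k (e + s) q + z1) - (vl 𝕜 k (n + s) q + zw) = z1 - zw := by
      rw [h6]
      abel
    rw [h9]
    exact h4

/-- the coefficient of `x` in a homogeneous element of `A + (x)` -/
theorem exists_coef (hA : HomI A) {x w : MvPolynomial σ K} {e n : ℕ} (hx : x.IsHomogeneous e)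
    (hw : w.IsHomogeneous n) (hwI : w ∈ A ⊔ Ideal.span {x}) (hwA : w ∉ A) :
    ∃ (r : MvPolynomial σ K) (i : ℕ), r.IsHomogeneous i ∧ i + e = n ∧ w - r * x ∈ A := by
  obtain ⟨a, ha, b, hb, hab⟩ := Submodule.mem_sup.1 hwI
  obtain ⟨u, rfl⟩ := Ideal.mem_span_singleton'.1 hb
  have h1 : w = homogeneousComponent n a + homogeneousComponent n (u * x) := by
    rw [← map_add, hab, homogeneousComponent_eq_self hw]
  by_cases hen : e ≤ n
  · refine ⟨homogeneousComponent (n - e) u, n - e, homogeneousComponent_isHomogeneous _ _,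
      by omega, ?_⟩
    have h2 := hc_mul u x hx (n - e)
    rw [Nat.sub_add_cancel hen] at h2
    rw [← h2]
    have h3 : w - homogeneousComponent n (u * x) = homogeneousComponent n a := by
      rw [h1]
      ring
    rw [h3]
    exact hA a ha n
  · exfalso
    apply hwA
    have h2 : homogeneousComponent n (u * x) = 0 := by
      rw [← sum_homogeneousComponent u, Finset.sum_mul, map_sum]
      apply Finset.sum_eq_zero
      intro j _
      rw [homogeneousComponent_of_mem ((homogeneousComponent_isHomogeneous j u).mul hx)]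
      rw [if_neg (by omega)]
    rw [h1, h2, add_zero]
    exact hA a ha n

theorem Val.inv (h : Val 𝕜 XX k s A B z) : (A = B ∧ z = 0) ∨
    ∃ (x : MvPolynomial σ K) (e : ℕ) (q : PrimeSpectrum (MvPolynomial σ K))
      (z1 : PrimeSpectrum (MvPolynomial σ K) →₀ 𝕜), x.IsHomogeneous e ∧
      (∀ r, r * x ∈ A ↔ r ∈ q.asIdeal) ∧ q ∈ XX ∧ dl K q ≤ k + 1 ∧
      Val 𝕜 XX k s (A ⊔ Ideal.span {x}) B z1 ∧ z = vl 𝕜 k (e + s) q + z1 := by
  cases h with
  | refl => exact Or.inl ⟨rfl, rfl⟩
  | step hx hq hqX hd h => exact Or.inr ⟨_, _, _, _, hx, hq, hqX, hd, h, rfl⟩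

theorem not_step_refl {x : MvPolynomial σ K} {q : PrimeSpectrum (MvPolynomial σ K)}
    (hq : ∀ r, r * x ∈ A ↔ r ∈ q.asIdeal) : ¬ A ⊔ Ideal.span {x} ≤ A := by
  intro h
  have h1 : x ∈ A := h (Ideal.mem_sup_right (Ideal.mem_span_singleton_self x))
  have h2 : (1 : MvPolynomial σ K) ∈ q.asIdeal := by
    rw [← hq, one_mul]
    exact h1
  exact q.2.ne_top ((Ideal.eq_top_iff_one _).2 h2)

/-- The value of a chain is well-defined modulo rational equivalence. -/
theorem val_unique (hup : ∀ p ∈ XX, ∀ q, p ≤ q → q ∈ XX) (hB : HomI B)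
    (A : Ideal (MvPolynomial σ K)) (hA : HomI A) : ∀ z z', Val 𝕜 XX k s A B z →
      Val 𝕜 XX k s A B z' → z - z' ∈ RH 𝕜 k XX := by
  classical
  induction A using WellFoundedGT.induction with
  | ind A ih =>
    intro z z' h h'
    have had := h.adm hup
    rcases h.inv with ⟨rfl, rfl⟩ | ⟨x, e, q, z1, hx, hq, hqX, hd, h1, rfl⟩
    · rcases h'.inv with ⟨_, rfl⟩ | ⟨y, e', q', z1', hy, hq', hqX', hd', h1', rfl⟩
      · rw [sub_zero]
        exact Submodule.zero_mem _
      · exact absurd h1'.le (not_step_refl hq')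
    · rcases h'.inv with ⟨rfl, rfl⟩ | ⟨y, e', q', z1', hy, hq', hqX', hd', h1', rfl⟩
      · exact absurd h1.le (not_step_refl hq)
      · have hlt1 : A < A ⊔ Ideal.span {x} := lt_of_le_not_ge le_sup_left (not_step_refl hq)
        have hlt2 : A < A ⊔ Ideal.span {y} := lt_of_le_not_ge le_sup_left (not_step_refl hq')
        by_cases hint : (A ⊔ Ideal.span {x}) ⊓ (A ⊔ Ideal.span {y}) ≤ A
        · have hxy : ∀ r, r * y ∈ A ⊔ Ideal.span {x} ↔ r ∈ q'.asIdeal := by
            intro r
            rw [← hq']
            constructor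
            · intro hr
              exact hint ⟨hr, Ideal.mul_mem_left _ _
                (Ideal.mem_sup_right (Ideal.mem_span_singleton_self y))⟩
            · intro hr
              exact Ideal.mem_sup_left hr
          have hyx : ∀ r, r * x ∈ A ⊔ Ideal.span {y} ↔ r ∈ q.asIdeal := by
            intro r
            rw [← hq]
            constructor
            · intro hr
              exact hint ⟨Ideal.mul_mem_left _ _
                (Ideal.mem_sup_right (Ideal.mem_span_singleton_self x)), hr⟩
            · intro hr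
              exact Ideal.mem_sup_left hr
          obtain ⟨u, hu⟩ := exists_val (XX := XX) (k := k) 𝕜 s hB
            (A ⊔ Ideal.span {x} ⊔ Ideal.span {y}) (homI_step (homI_step hA hx) hy)
            (sup_le h1.le (le_sup_right.trans h1'.le))
            (had.mono (le_sup_left.trans le_sup_left) le_rfl)
          have hu' : Val 𝕜 XX k s (A ⊔ Ideal.span {y} ⊔ Ideal.span {x}) B u := by
            rw [sup_right_comm]
            exact hu
          have k1 := ih _ hlt1 (homI_step hA hx) _ _ h1 (Val.step hy hxy hqX' hd' hu)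
          have k2 := ih _ hlt2 (homI_step hA hy) _ _ h1' (Val.step hx hyx hqX hd hu')
          have k3 := Submodule.sub_mem _ k1 k2
          have k4 : (vl 𝕜 k (e + s) q + z1) - (vl 𝕜 k (e' + s) q' + z1') =
              (z1 - (vl 𝕜 k (e' + s) q' + u)) - (z1' - (vl 𝕜 k (e + s) q + u)) := by abel
          rw [k4]
          exact k3
        · obtain ⟨w0, ⟨hw1, hw2⟩, hw0⟩ := Set.not_subset.1 hint
          obtain ⟨n, hn⟩ : ∃ n, homogeneousComponent n w0 ∉ A := by
            by_contra hc
            push Not at hc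
            exact hw0 (mem_of_comp _ _ hc)
          have hw : (homogeneousComponent n w0).IsHomogeneous n :=
            homogeneousComponent_isHomogeneous _ _
          have hwx := homI_step hA hx w0 hw1 n
          have hwy := homI_step hA hy w0 hw2 n
          generalize homogeneousComponent n w0 = w at hn hw hwx hwy
          obtain ⟨r, i, hr, hin, hrx⟩ := exists_coef hA hx hw hwx hn
          obtain ⟨r', i', hr', hin', hry⟩ := exists_coef hA hy hw hwy hn
          have hrq : r ∉ q.asIdeal := by
            intro hh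
            apply hn
            have : w = (w - r * x) + r * x := by ring
            rw [this]
            exact A.add_mem hrx ((hq r).2 hh)
          have hrq' : r' ∉ q'.asIdeal := by
            intro hh
            apply hn
            have : w = (w - r' * y) + r' * y := by ring
            rw [this]
            exact A.add_mem hry ((hq' r').2 hh)
          have hcol : ∀ t, t * w ∈ A ↔ t ∈ q.asIdeal := by
            intro t
            constructor
            · intro ht
              have h3 : (t * r) * x ∈ A := by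
                have : (t * r) * x = t * w - t * (w - r * x) := by ring
                rw [this]
                exact A.sub_mem ht (A.mul_mem_left _ hrx)
              rw [hq] at h3
              exact (q.2.mem_or_mem h3).resolve_right hrq
            · intro ht
              have : t * w = t * (w - r * x) + r * (t * x) := by ring
              rw [this]
              exact A.add_mem (A.mul_mem_left _ hrx) (A.mul_mem_left _ ((hq t).2 ht))
          have hcol' : ∀ t, t * w ∈ A ↔ t ∈ q'.asIdeal := by
            intro t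
            constructor
            · intro ht
              have h3 : (t * r') * y ∈ A := by
                have : (t * r') * y = t * w - t * (w - r' * y) := by ring
                rw [this]
                exact A.sub_mem ht (A.mul_mem_left _ hry)
              rw [hq'] at h3
              exact (q'.2.mem_or_mem h3).resolve_right hrq'
            · intro ht
              have : t * w = t * (w - r' * y) + r' * (t * y) := by ring
              rw [this]
              exact A.add_mem (A.mul_mem_left _ hry) (A.mul_mem_left _ ((hq' t).2 ht))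
          have hqq : q = q' := by
            apply PrimeSpectrum.ext
            ext t
            rw [← hcol, ← hcol']
          subst hqq
          have hlt3 : A < A ⊔ Ideal.span {w} := by
            apply lt_of_le_of_ne le_sup_left
            intro hh
            apply hn
            rw [hh]
            exact Ideal.mem_sup_right (Ideal.mem_span_singleton_self w)
          obtain ⟨zw, hzw⟩ := exists_val (XX := XX) (k := k) 𝕜 s hB
            (A ⊔ Ideal.span {w}) (homI_step hA hw)
            (sup_le h.le (by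
              rw [Ideal.span_singleton_le_iff_mem]
              exact h1.le hwx)) (had.mono le_sup_left le_rfl)
          have IH := ih _ hlt3 (homI_step hA hw)
          have k1 := compare hup hA hx hr hin hrx hq hqX hd hrq h1 hzw IH
          have k2 := compare hup hA hy hr' hin' hry hq' hqX hd hrq' h1' hzw IH
          have k3 := Submodule.sub_mem _ k1 k2
          rw [sub_sub_sub_cancel_right] at k3
          exact k3

end Pool.Agent.Bloch.Pen
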