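import Pool.Agent.Bloch.Pen.ValB

/-! Classes of quotients of homogeneous ideals, additivity and transport. -/

set_option linter.unusedSectionVars false

open MvPolynomial

namespace Pool.Agent.Bloch.Pen

open _root_.Pool.Agent.Bloch.Sep

variable {K : Type} [Field K] {σ : Type} [Finite σ] (𝕜 : Type) [Field 𝕜] [CharZero 𝕜]
  (XX : Set (PrimeSpectrum (MvPolynomial σ K))) (k s : ℕ)

open Classical in
/-- the class of a quotient `B / A`, modulo rational equivalence -/
noncomputable def cl (A B : Ideal (MvPolynomial σ K)) :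
    (PrimeSpectrum (MvPolynomial σ K) →₀ 𝕜) ⧸ RH 𝕜 k XX :=
  if h : ∃ z, Val 𝕜 XX k s A B z then Submodule.Quotient.mk h.choose else 0

variable {𝕜 XX k s} {A B C : Ideal (MvPolynomial σ K)}
  {z z' : PrimeSpectrum (MvPolynomial σ K) →₀ 𝕜}

theorem Val.homI (hA : HomI A) (h : Val 𝕜 XX k s A B z) : HomI B := by
  induction h with
  | refl A => exact hA
  | step hx hq hqX hd h ih => exact ih (homI_step hA hx)

theorem cl_eq (hup : ∀ p ∈ XX, ∀ q, p ≤ q → q ∈ XX) (hA : HomI A)
    (h : Val 𝕜 XX k s A B z) : cl 𝕜 XX k s A B = Submodule.Quotient.mk z := by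
  have h1 : ∃ z, Val 𝕜 XX k s A B z := ⟨z, h⟩
  unfold cl
  rw [dif_pos h1, Submodule.Quotient.eq]
  exact val_unique hup (h.homI hA) A hA _ _ h1.choose_spec h

theorem cl_add (hup : ∀ p ∈ XX, ∀ q, p ≤ q → q ∈ XX) (hA : HomI A) (hB : HomI B) (hC : HomI C)
    (hAB : A ≤ B) (hBC : B ≤ C) (had : Adm XX (k + 1) A C) :
    cl 𝕜 XX k s A C = cl 𝕜 XX k s A B + cl 𝕜 XX k s B C := by
  obtain ⟨z1, h1⟩ := exists_val (XX := XX) (k := k) 𝕜 s hB A hA hAB (had.mono le_rfl hBC)
  obtain ⟨z2, h2⟩ := exists_val (XX := XX) (k := k) 𝕜 s hC B hB hBC (had.mono hAB le_rfl)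
  rw [cl_eq hup hA h1, cl_eq hup hB h2, cl_eq hup hA (h1.trans h2)]
  exact Submodule.Quotient.mk_add _

theorem cl_refl (hup : ∀ p ∈ XX, ∀ q, p ≤ q → q ∈ XX) (hA : HomI A) :
    cl 𝕜 XX k s A A = 0 := by
  rw [cl_eq hup hA (Val.refl A)]
  rfl

/-- transport of chains by multiplication with a form -/
theorem Val.transport {u : MvPolynomial σ K} {d : ℕ} (hu : u.IsHomogeneous d)
    {D D' : Ideal (MvPolynomial σ K)} (h : Val 𝕜 XX k (s + d) C D z) :
    ∀ C' : Ideal (MvPolynomial σ K), (∀ y ∈ C, u * y ∈ C') →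
      (∀ y ∈ D, u * y ∈ C' → y ∈ C) → (∀ y, y ∈ D' ↔ ∃ c ∈ C', ∃ x ∈ D, y = c + u * x) →
      Val 𝕜 XX k s C' D' z := by
  induction h with
  | refl C =>
    intro C' h1 h2 h3
    have h4 : C' = D' := by
      ext y
      rw [h3]
      constructor
      · intro hy
        exact ⟨y, hy, 0, C.zero_mem, by ring⟩
      · rintro ⟨c, hc, x, hx, rfl⟩
        exact C'.add_mem hc (h1 x hx)
    subst h4
    exact Val.refl C'
  | @step C D x e q z hx hq hqX hd h ih =>
    intro C' h1 h2 h3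
    have hxD : x ∈ D := h.le (Ideal.mem_sup_right (Ideal.mem_span_singleton_self x))
    have h4 : vl 𝕜 k (e + (s + d)) q = vl 𝕜 k (d + e + s) q := by
      congr 1
      omega
    rw [h4]
    refine Val.step (hu.mul hx) ?_ hqX hd (ih (C' ⊔ Ideal.span {u * x}) ?_ ?_ ?_)
    · intro r
      rw [← hq]
      constructor
      · intro hr
        apply h2 _ (D.mul_mem_left _ hxD)
        have : u * (r * x) = r * (u * x) := by ring
        rw [this]
        exact hr
      · intro hr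
        have : r * (u * x) = u * (r * x) := by ring
        rw [this]
        exact h1 _ hr
    · intro y hy
      obtain ⟨a, ha, b, hb, rfl⟩ := Submodule.mem_sup.1 hy
      obtain ⟨t, rfl⟩ := Ideal.mem_span_singleton'.1 hb
      have : u * (a + t * x) = u * a + t * (u * x) := by ring
      rw [this]
      exact Submodule.add_mem_sup (h1 a ha) (Ideal.mem_span_singleton'.2 ⟨t, rfl⟩)
    · intro y hy huy
      obtain ⟨a, ha, b, hb, hab⟩ := Submodule.mem_sup.1 huy
      obtain ⟨t, rfl⟩ := Ideal.mem_span_singleton'.1 hb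
      have h5 : y - t * x ∈ C := by
        apply h2 _ (D.sub_mem hy (D.mul_mem_left _ hxD))
        have : u * (y - t * x) = a := by linear_combination -hab
        rw [this]
        exact ha
      have : y = (y - t * x) + t * x := by ring
      rw [this]
      exact Submodule.add_mem_sup h5 (Ideal.mem_span_singleton'.2 ⟨t, rfl⟩)
    · intro y
      rw [h3]
      constructor
      · rintro ⟨c, hc, x', hx', rfl⟩
        exact ⟨c, Ideal.mem_sup_left hc, x', hx', rfl⟩
      · rintro ⟨c, hc, x', hx', rfl⟩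
        obtain ⟨a, ha, b, hb, rfl⟩ := Submodule.mem_sup.1 hc
        obtain ⟨t, rfl⟩ := Ideal.mem_span_singleton'.1 hb
        exact ⟨a, ha, t * x + x', D.add_mem (D.mul_mem_left _ hxD) hx', by ring⟩

theorem cl_transport (hup : ∀ p ∈ XX, ∀ q, p ≤ q → q ∈ XX) {u : MvPolynomial σ K} {d : ℕ}
    (hu : u.IsHomogeneous d) {C D C' D' : Ideal (MvPolynomial σ K)} (hC : HomI C) (hD : HomI D)
    (hC' : HomI C') (hCD : C ≤ D) (had : Adm XX (k + 1) C D) (h1 : ∀ y ∈ C, u * y ∈ C')
    (h2 : ∀ y ∈ D, u * y ∈ C' → y ∈ C) (h3 : ∀ y, y ∈ D' ↔ ∃ c ∈ C', ∃ x ∈ D, y = c + u * x) :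
    cl 𝕜 XX k (s + d) C D = cl 𝕜 XX k s C' D' := by
  obtain ⟨z1, hz⟩ := exists_val (XX := XX) (k := k) 𝕜 (s + d) hD C hC hCD had
  rw [cl_eq hup hC hz, cl_eq hup hC' (hz.transport hu C' h1 h2 h3)]

/-- the second isomorphism theorem -/
theorem cl_iso (hup : ∀ p ∈ XX, ∀ q, p ≤ q → q ∈ XX) {D C' : Ideal (MvPolynomial σ K)}
    (hD : HomI D) (hC' : HomI C') (hC : HomI (C' ⊓ D)) (had : Adm XX (k + 1) (C' ⊓ D) D) :
    cl 𝕜 XX k s (C' ⊓ D) D = cl 𝕜 XX k s C' (C' ⊔ D) := by
  refine cl_transport (u := 1) (d := 0) hup (isHomogeneous_one σ K) hC hD hC' inf_le_right had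
    ?_ ?_ ?_
  · intro y hy
    rw [one_mul]
    exact hy.1
  · intro y hy hy'
    rw [one_mul] at hy'
    exact ⟨hy', hy⟩
  · intro y
    constructor
    · intro hy
      obtain ⟨a, ha, b, hb, rfl⟩ := Submodule.mem_sup.1 hy
      exact ⟨a, ha, b, hb, by ring⟩
    · rintro ⟨c, hc, x, hx, rfl⟩
      rw [one_mul]
      exact Submodule.add_mem_sup hc hx

theorem homI_inf (hA : HomI A) (hB : HomI B) : HomI (A ⊓ B) :=
  fun f hf n => ⟨hA f hf.1 n, hB f hf.2 n⟩

theorem homI_top : HomI (⊤ : Ideal (MvPolynomial σ K)) := fun _ _ _ => Submodule.mem_top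

/-- the ideal of the elements whose product with `g` is in `J` -/
def col (J : Ideal (MvPolynomial σ K)) (g : MvPolynomial σ K) : Ideal (MvPolynomial σ K) where
  carrier := {r | g * r ∈ J}
  add_mem' := by
    intro a b ha hb
    change g * (a + b) ∈ J
    rw [mul_add]
    exact J.add_mem ha hb
  zero_mem' := by
    change g * 0 ∈ J
    rw [mul_zero]
    exact J.zero_mem
  smul_mem' := by
    intro c r hr
    change g * (c * r) ∈ J
    have : g * (c * r) = c * (g * r) := by ring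
    rw [this]
    exact J.mul_mem_left _ hr

theorem mem_col {J : Ideal (MvPolynomial σ K)} {g r : MvPolynomial σ K} :
    r ∈ col J g ↔ g * r ∈ J := Iff.rfl

theorem homI_col {J : Ideal (MvPolynomial σ K)} (hJ : HomI J) {g : MvPolynomial σ K} {n : ℕ}
    (hg : g.IsHomogeneous n) : HomI (col J g) := by
  intro f hf i
  rw [mem_col] at hf ⊢
  rw [mul_comm] at hf ⊢
  rw [← hc_mul f g hg i]
  exact hJ _ hf _

theorem le_col (J : Ideal (MvPolynomial σ K)) (g : MvPolynomial σ K) : J ≤ col J g :=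
  fun _ hr => J.mul_mem_left _ hr

end Pool.Agent.Bloch.Pen
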