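import Pool.Agent.Bloch.Pen.ValC

/-! The key identity: intersecting with two forms in the two orders. -/

set_option linter.unusedSectionVars false

open MvPolynomial

namespace Pool.Agent.Bloch.Pen

open _root_.Pool.Agent.Bloch.Sep

variable {K : Type} [Field K] {σ : Type} [Finite σ] (𝕜 : Type) [Field 𝕜] [CharZero 𝕜]

open Classical in
/-- the section of a subvariety by a form `g` of degree `n` -/
noncomputable def PhB (k : ℕ) (g : MvPolynomial σ K) (n : ℕ)
    (T : PrimeSpectrum (MvPolynomial σ K)) : PrimeSpectrum (MvPolynomial σ K) →₀ 𝕜 :=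
  if g ∈ T.asIdeal then (n : 𝕜) • Hc 𝕜 k T else divCyc K 𝕜 k T g

/-- the sections of cycles by a form `g` of degree `n` -/
noncomputable def Ph (k : ℕ) (g : MvPolynomial σ K) (n : ℕ) :
    (PrimeSpectrum (MvPolynomial σ K) →₀ 𝕜) →ₗ[𝕜] (PrimeSpectrum (MvPolynomial σ K) →₀ 𝕜) :=
  Finsupp.linearCombination 𝕜 (PhB 𝕜 k g n)

theorem Ph_single (k : ℕ) (g : MvPolynomial σ K) (n : ℕ)
    (T : PrimeSpectrum (MvPolynomial σ K)) (c : 𝕜) :
    Ph 𝕜 k g n (Finsupp.single T c) = c • PhB 𝕜 k g n T := by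
  unfold Ph
  rw [Finsupp.linearCombination_single]

/-- the primes over `J` which contain `g` are in the closed set and of dimension at most `k+1` -/
def Jok (XX : Set (PrimeSpectrum (MvPolynomial σ K))) (k : ℕ) (g : MvPolynomial σ K)
    (J : Ideal (MvPolynomial σ K)) : Prop :=
  ∀ p : PrimeSpectrum (MvPolynomial σ K), J ≤ p.asIdeal → g ∈ p.asIdeal → p ∈ XX ∧ dl K p ≤ k + 1

variable {XX : Set (PrimeSpectrum (MvPolynomial σ K))} {k s : ℕ}
  {A B C J : Ideal (MvPolynomial σ K)} {g : MvPolynomial σ K} {n : ℕ}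

theorem Jok.mono {J' : Ideal (MvPolynomial σ K)} (h : Jok XX k g J) (hJ : J ≤ J') :
    Jok XX k g J' := fun p hp hg => h p (hJ.trans hp) hg

theorem Jok.adm (h : Jok XX k g J) (hA : J ≤ A) (hB : ∀ y ∈ B, g * y ∈ A) :
    Adm XX (k + 1) A B := by
  intro p hp
  apply h p
  · intro r hr
    exact hp r (fun x _ => hA (J.mul_mem_right x hr))
  · exact hp g hB

variable (XX k s g n) in
/-- the Euler class of the multiplication by `g` on `R / J` -/
noncomputable def Eu (J : Ideal (MvPolynomial σ K)) :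
    (PrimeSpectrum (MvPolynomial σ K) →₀ 𝕜) ⧸ RH 𝕜 k XX :=
  cl 𝕜 XX k s (J ⊔ Ideal.span {g}) ⊤ - cl 𝕜 XX k (s + n) J (col J g)

variable {𝕜}

theorem eu_step (hup : ∀ p ∈ XX, ∀ q, p ≤ q → q ∈ XX) (hg : g.IsHomogeneous n) (hJ : HomI J)
    (hok : Jok XX k g J) {x : MvPolynomial σ K} {e : ℕ} (hx : x.IsHomogeneous e) :
    Eu 𝕜 XX k s g n J = Eu 𝕜 XX k s g n (J ⊔ Ideal.span {x}) +
      (cl 𝕜 XX k s (J ⊔ Ideal.span {g * x}) (J ⊔ Ideal.span {x}) -
        cl 𝕜 XX k (s + n) J ((J ⊔ Ideal.span {x}) ⊓ col J g)) := by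
  have hJ' : HomI (J ⊔ Ideal.span {x}) := homI_step hJ hx
  have hJJ' : J ≤ J ⊔ Ideal.span {x} := le_sup_left
  have hxJ' : x ∈ J ⊔ Ideal.span {x} :=
    Ideal.mem_sup_right (Ideal.mem_span_singleton_self x)
  have hJx : ∀ y, y ∈ J ⊔ Ideal.span {x} ↔ ∃ j ∈ J, ∃ t, y = j + t * x := by
    intro y
    constructor
    · intro hy
      obtain ⟨a, ha, b, hb, rfl⟩ := Submodule.mem_sup.1 hy
      obtain ⟨t, rfl⟩ := Ideal.mem_span_singleton'.1 hb
      exact ⟨a, ha, t, rfl⟩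
    · rintro ⟨j, hj, t, rfl⟩
      exact Ideal.add_mem _ (hJJ' hj) (Ideal.mul_mem_left _ _ hxJ')
  generalize hJ'e : J ⊔ Ideal.span {x} = J' at hJ' hJJ' hxJ' hJx
  have hG : HomI (Ideal.span {g}) := homI_span hg
  have hgG : g ∈ Ideal.span {g} := Ideal.mem_span_singleton_self g
  have hJG : HomI (J ⊔ Ideal.span {g}) := homI_sup hJ hG
  have hJG' : HomI (J' ⊔ Ideal.span {g}) := homI_sup hJ' hG
  have hcol : col J g ≤ col J' g := fun y hy => hJJ' hy
  have hgy : ∀ (I : Ideal (MvPolynomial σ K)) (y : MvPolynomial σ K),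
      g * y ∈ I ⊔ Ideal.span {g} := fun I y =>
    Ideal.mem_sup_right (Ideal.mul_mem_right _ _ hgG)
  -- (1)
  have e1 : cl 𝕜 XX k s (J ⊔ Ideal.span {g}) ⊤ =
      cl 𝕜 XX k s (J ⊔ Ideal.span {g}) (J' ⊔ Ideal.span {g}) +
        cl 𝕜 XX k s (J' ⊔ Ideal.span {g}) ⊤ :=
    cl_add hup hJG hJG' homI_top (sup_le_sup_right hJJ' _) le_top
      (hok.adm le_sup_left (fun y _ => hgy J y))
  -- (2)
  have e2 : cl 𝕜 XX k s ((J ⊔ Ideal.span {g}) ⊓ J') J' =
      cl 𝕜 XX k s (J ⊔ Ideal.span {g}) ((J ⊔ Ideal.span {g}) ⊔ J') :=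
    cl_iso hup hJ' hJG (homI_inf hJG hJ')
      (hok.adm (le_inf le_sup_left hJJ') (fun y hy => ⟨hgy J y, J'.mul_mem_left _ hy⟩))
  have e2' : (J ⊔ Ideal.span {g}) ⊔ J' = J' ⊔ Ideal.span {g} := by
    rw [sup_right_comm, sup_eq_right.2 hJJ']
  rw [e2'] at e2
  -- (3)
  have e3 : cl 𝕜 XX k (s + n) J' (col J' g) =
      cl 𝕜 XX k (s + n) J' (J' ⊔ col J g) + cl 𝕜 XX k (s + n) (J' ⊔ col J g) (col J' g) :=
    cl_add hup hJ' (homI_sup hJ' (homI_col hJ hg)) (homI_col hJ' hg) le_sup_left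
      (sup_le (le_col _ _) hcol) (hok.adm hJJ' (fun y hy => hy))
  -- (4)
  have e4 : cl 𝕜 XX k (s + n) (J' ⊓ col J g) (col J g) =
      cl 𝕜 XX k (s + n) J' (J' ⊔ col J g) :=
    cl_iso hup (homI_col hJ hg) hJ' (homI_inf hJ' (homI_col hJ hg))
      (hok.adm (le_inf hJJ' (le_col _ _)) (fun y hy => ⟨hJJ' hy, le_col _ _ hy⟩))
  -- (5)
  have e5 : cl 𝕜 XX k (s + n) J (col J g) =
      cl 𝕜 XX k (s + n) J (J' ⊓ col J g) + cl 𝕜 XX k (s + n) (J' ⊓ col J g) (col J g) :=
    cl_add hup hJ (homI_inf hJ' (homI_col hJ hg)) (homI_col hJ hg)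
      (le_inf hJJ' (le_col _ _)) inf_le_right (hok.adm le_rfl (fun y hy => hy))
  -- (6)
  have hgx : HomI (J ⊔ Ideal.span {g * x}) := homI_step hJ (hg.mul hx)
  have e6 : cl 𝕜 XX k (s + n) (J' ⊔ col J g) (col J' g) =
      cl 𝕜 XX k s (J ⊔ Ideal.span {g * x}) ((J ⊔ Ideal.span {g}) ⊓ J') := by
    refine cl_transport (u := g) (d := n) hup hg (homI_sup hJ' (homI_col hJ hg))
      (homI_col hJ' hg) hgx (sup_le (le_col _ _) hcol)
      (hok.adm (hJJ'.trans le_sup_left) (fun y hy => Ideal.mem_sup_left hy)) ?_ ?_ ?_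
    · intro y hy
      obtain ⟨a, ha, b, hb, rfl⟩ := Submodule.mem_sup.1 hy
      obtain ⟨j, hj, t, rfl⟩ := (hJx a).1 ha
      have : g * (j + t * x + b) = (g * j + g * b) + t * (g * x) := by ring
      rw [this]
      exact Submodule.add_mem_sup (J.add_mem (J.mul_mem_left _ hj) hb)
        (Ideal.mem_span_singleton'.2 ⟨t, rfl⟩)
    · intro y hy hgy'
      obtain ⟨a, ha, b, hb, hab⟩ := Submodule.mem_sup.1 hgy'
      obtain ⟨t, rfl⟩ := Ideal.mem_span_singleton'.1 hb
      have h5 : y - t * x ∈ col J g := by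
        rw [mem_col]
        have : g * (y - t * x) = a := by linear_combination -hab
        rw [this]
        exact ha
      have : y = t * x + (y - t * x) := by ring
      rw [this]
      exact Submodule.add_mem_sup (J'.mul_mem_left _ hxJ') h5
    · intro y
      constructor
      · rintro ⟨hy1, hy2⟩
        obtain ⟨a, ha, b, hb, rfl⟩ := Submodule.mem_sup.1 hy1
        obtain ⟨t, rfl⟩ := Ideal.mem_span_singleton'.1 hb
        refine ⟨a, Ideal.mem_sup_left ha, t, ?_, by ring⟩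
        rw [mem_col]
        have : g * t = (a + t * g) - a := by ring
        rw [this]
        exact J'.sub_mem hy2 (hJJ' ha)
      · rintro ⟨c, hc, x', hx', rfl⟩
        obtain ⟨a, ha, b, hb, rfl⟩ := Submodule.mem_sup.1 hc
        obtain ⟨t, rfl⟩ := Ideal.mem_span_singleton'.1 hb
        constructor
        · have : a + t * (g * x) + g * x' = a + (t * x + x') * g := by ring
          rw [this]
          exact Submodule.add_mem_sup ha (Ideal.mem_span_singleton'.2 ⟨_, rfl⟩)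
        · have : a + t * (g * x) + g * x' = a + (t * g) * x + g * x' := by ring
          rw [this]
          exact J'.add_mem (J'.add_mem (hJJ' ha) (J'.mul_mem_left _ hxJ')) hx'
  -- (7)
  have e7 : cl 𝕜 XX k s (J ⊔ Ideal.span {g * x}) J' =
      cl 𝕜 XX k s (J ⊔ Ideal.span {g * x}) ((J ⊔ Ideal.span {g}) ⊓ J') +
        cl 𝕜 XX k s ((J ⊔ Ideal.span {g}) ⊓ J') J' := by
    refine cl_add hup hgx (homI_inf hJG hJ') hJ' ?_ inf_le_right
      (hok.adm le_sup_left ?_)
    · refine sup_le (le_inf le_sup_left hJJ') ?_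
      rw [Ideal.span_singleton_le_iff_mem]
      exact ⟨hgy J x, J'.mul_mem_left _ hxJ'⟩
    · intro y hy
      obtain ⟨j, hj, t, rfl⟩ := (hJx y).1 hy
      have : g * (j + t * x) = g * j + t * (g * x) := by ring
      rw [this]
      exact Submodule.add_mem_sup (J.mul_mem_left _ hj) (Ideal.mem_span_singleton'.2 ⟨t, rfl⟩)
  unfold Eu
  rw [e1, e3, e5, e7, ← e2, ← e4, ← e6]
  abel

theorem eu_val (hup : ∀ p ∈ XX, ∀ q, p ≤ q → q ∈ XX) (hg : g.IsHomogeneous n) (hJ : HomI J)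
    (hok : Jok XX k g J) {x : MvPolynomial σ K} {e : ℕ} (hx : x.IsHomogeneous e)
    {T : PrimeSpectrum (MvPolynomial σ K)} (hT : ∀ r, r * x ∈ J ↔ r ∈ T.asIdeal)
    (hd : dl K T ≤ k + 1) :
    Eu 𝕜 XX k s g n J = Eu 𝕜 XX k s g n (J ⊔ Ideal.span {x}) +
      Submodule.Quotient.mk (if dl K T = k + 1 then PhB 𝕜 k g n T else 0) := by
  classical
  rw [eu_step hup hg hJ hok hx]
  congr 1
  have hJx : ∀ y, y ∈ J ⊔ Ideal.span {x} ↔ ∃ j ∈ J, ∃ t, y = j + t * x := by
    intro y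
    constructor
    · intro hy
      obtain ⟨a, ha, b, hb, rfl⟩ := Submodule.mem_sup.1 hy
      obtain ⟨t, rfl⟩ := Ideal.mem_span_singleton'.1 hb
      exact ⟨a, ha, t, rfl⟩
    · rintro ⟨j, hj, t, rfl⟩
      exact Submodule.add_mem_sup hj (Ideal.mem_span_singleton'.2 ⟨t, rfl⟩)
  have hgJ : ∀ y ∈ J ⊔ Ideal.span {x}, g * y ∈ J ⊔ Ideal.span {g * x} := by
    intro y hy
    obtain ⟨j, hj, t, rfl⟩ := (hJx y).1 hy
    have : g * (j + t * x) = g * j + t * (g * x) := by ring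
    rw [this]
    exact Submodule.add_mem_sup (J.mul_mem_left _ hj) (Ideal.mem_span_singleton'.2 ⟨t, rfl⟩)
  by_cases hgT : g ∈ T.asIdeal
  · -- `g` is in the prime
    have h1 : J ⊔ Ideal.span {g * x} = J := by
      rw [sup_eq_left, Ideal.span_singleton_le_iff_mem, hT]
      exact hgT
    have h2 : (J ⊔ Ideal.span {x}) ⊓ col J g = J ⊔ Ideal.span {x} := by
      rw [inf_eq_left]
      intro y hy
      have := hgJ y hy
      rw [h1] at this
      exact this
    have hJT : J ≤ T.asIdeal := by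
      intro r hr
      rw [← hT]
      exact J.mul_mem_right _ hr
    obtain ⟨hTX, _⟩ := hok T hJT hgT
    rw [h1, h2, cl_eq hup hJ (Val.step hx hT hTX hd (Val.refl _)),
      cl_eq hup hJ (Val.step hx hT hTX hd (Val.refl _)), ← Submodule.Quotient.mk_sub]
    congr 1
    unfold PhB vl
    rw [if_pos hgT]
    by_cases h3 : dl K T = k + 1
    · rw [if_neg (by omega), if_pos h3, if_neg (by omega), if_pos h3, if_pos h3]
      push_cast
      module
    · rw [if_neg h3, if_neg h3, if_neg h3, sub_self]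
  · -- `g` is not in the prime
    have h2 : (J ⊔ Ideal.span {x}) ⊓ col J g = J := by
      apply le_antisymm
      · rintro y ⟨hy1, hy2⟩
        obtain ⟨j, hj, t, rfl⟩ := (hJx y).1 hy1
        replace hy2 : g * (j + t * x) ∈ J := hy2
        have h3 : (g * t) * x ∈ J := by
          have : (g * t) * x = g * (j + t * x) - g * j := by ring
          rw [this]
          exact J.sub_mem hy2 (J.mul_mem_left _ hj)
        rw [hT] at h3
        exact J.add_mem hj ((hT t).2 ((T.2.mem_or_mem h3).resolve_left hgT))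
      · exact le_inf le_sup_left (le_col _ _)
    have hle : J ⊔ Ideal.span {g * x} ≤ J ⊔ Ideal.span {x} := by
      refine sup_le le_sup_left ?_
      rw [Ideal.span_singleton_le_iff_mem]
      exact Ideal.mem_sup_right (Ideal.mem_span_singleton'.2 ⟨g, rfl⟩)
    obtain ⟨z, hz⟩ := exists_val (XX := XX) (k := k) 𝕜 s (homI_step hJ hx)
      (J ⊔ Ideal.span {g * x}) (homI_step hJ (hg.mul hx)) hle (hok.adm le_sup_left hgJ)
    rw [h2, cl_refl hup hJ, sub_zero, cl_eq hup (homI_step hJ (hg.mul hx)) hz]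
    congr 1
    unfold PhB
    rw [if_neg hgT]
    by_cases h3 : dl K T = k + 1
    · rw [if_pos h3]
      exact hz.eq_div hT h3 hgT
    · rw [if_neg h3]
      exact hz.eq_zero' hT (by omega) hgT

/-- The Euler class of the multiplication by `g` on `R / J` is the section by `g` of the cycle
of `R / J`. -/
theorem eu_eq (hup : ∀ p ∈ XX, ∀ q, p ≤ q → q ∈ XX) (hg : g.IsHomogeneous n) {s' : ℕ}
    {B : Ideal (MvPolynomial σ K)} (hBt : B = ⊤)
    {z : PrimeSpectrum (MvPolynomial σ K) →₀ 𝕜} (h : Val 𝕜 Set.univ (k + 1) s' J B z) :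
    HomI J → Jok XX k g J → Adm Set.univ (k + 1) J ⊤ →
      Eu 𝕜 XX k s g n J = Submodule.Quotient.mk (Ph 𝕜 k g n z) := by
  classical
  induction h with
  | refl J =>
    intro hJ hok had
    subst hBt
    unfold Eu
    have h1 : col (⊤ : Ideal (MvPolynomial σ K)) g = ⊤ := by
      rw [eq_top_iff]
      exact le_col _ _
    rw [h1, top_sup_eq, cl_refl hup homI_top, cl_refl hup homI_top, map_zero, sub_self]
    rfl
  | @step J B x e T z hx hT hTX hd h ih =>
    intro hJ hok had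
    have hdT : dl K T ≤ k + 1 :=
      (had T (fun r hr => (hT r).1 (hr x Submodule.mem_top))).2
    rw [eu_val hup hg hJ hok hx hT hdT, ih hBt (homI_step hJ hx) (hok.mono le_sup_left)
      (had.mono le_sup_left le_rfl), ← Submodule.Quotient.mk_add]
    congr 1
    rw [map_add, add_comm]
    congr 1
    unfold vl
    by_cases h3 : dl K T = k + 1
    · rw [if_pos h3, if_pos h3, Ph_single, one_smul]
    · rw [if_neg h3, if_neg h3, if_neg (by omega), map_zero]

/-- the Euler class of `g` on `R / (W + (P))` is the section by `g` of the divisor of `P` -/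
theorem eu_div (hup : ∀ p ∈ XX, ∀ q, p ≤ q → q ∈ XX) (hg : g.IsHomogeneous n)
    {W : PrimeSpectrum (MvPolynomial σ K)} (hW : HomP W) (hd : dl K W = k + 2)
    {P : MvPolynomial σ K} {m : ℕ} (hP : P.IsHomogeneous m) (hPW : P ∉ W.asIdeal)
    (hok : Jok XX k g (W.asIdeal ⊔ Ideal.span {P})) :
    Eu 𝕜 XX k s g n (W.asIdeal ⊔ Ideal.span {P}) =
      Submodule.Quotient.mk (Ph 𝕜 k g n (divCyc K 𝕜 (k + 1) W P)) := by
  have hT : ∀ r, r * 1 ∈ W.asIdeal ↔ r ∈ W.asIdeal := fun r => by rw [mul_one]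
  have had : Adm Set.univ (k + 1) (W.asIdeal ⊔ Ideal.span {P}) ⊤ := by
    intro p hp
    refine ⟨Set.mem_univ _, ?_⟩
    have h1 : W.asIdeal ⊔ Ideal.span {P} ≤ p.asIdeal := fun r hr =>
      hp r (fun x _ => Ideal.mul_mem_right _ _ hr)
    have h2 : W < p := by
      apply lt_of_le_of_ne (fun r hr => h1 (Ideal.mem_sup_left hr))
      rintro rfl
      exact hPW (h1 (Ideal.mem_sup_right (Ideal.mem_span_singleton_self P)))
    have := dl_lt K h2
    omega
  have hH : HomI (W.asIdeal ⊔ Ideal.span {P}) := homI_step (A := W.asIdeal) hW hP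
  obtain ⟨z, hz⟩ := exists_val (XX := Set.univ) (k := k + 1) 𝕜 0 homI_top
    (W.asIdeal ⊔ Ideal.span {P}) hH le_top (fun p hp =>
      ⟨Set.mem_univ _, (had p hp).2.trans (Nat.le_succ _)⟩)
  rw [eu_eq hup hg rfl hz hH hok had]
  congr 2
  have h1 : (⊤ : Ideal (MvPolynomial σ K)) = W.asIdeal ⊔ Ideal.span {1} := by
    rw [Ideal.span_singleton_one, sup_top_eq]
  rw [h1] at hz
  have h2 : W.asIdeal ⊔ Ideal.span {P} = W.asIdeal ⊔ Ideal.span {P * 1} := by rw [mul_one]
  rw [h2] at hz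
  exact hz.eq_div hT hd hPW

/-- one half of the symmetry -/
theorem cl_swap (hup : ∀ p ∈ XX, ∀ q, p ≤ q → q ∈ XX) (hg : g.IsHomogeneous n)
    {W : PrimeSpectrum (MvPolynomial σ K)} (hW : HomP W)
    {P : MvPolynomial σ K} {m : ℕ} (hP : P.IsHomogeneous m) (hgW : g ∉ W.asIdeal)
    (hok : Jok XX k g (W.asIdeal ⊔ Ideal.span {P})) :
    cl 𝕜 XX k (s + n) (W.asIdeal ⊔ Ideal.span {P}) (col (W.asIdeal ⊔ Ideal.span {P}) g) =
      cl 𝕜 XX k s (W.asIdeal ⊔ Ideal.span {P * g})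
        ((W.asIdeal ⊔ Ideal.span {P}) ⊓ (W.asIdeal ⊔ Ideal.span {g})) := by
  have hH : HomI (W.asIdeal ⊔ Ideal.span {P}) := homI_step (A := W.asIdeal) hW hP
  have hH2 : HomI (W.asIdeal ⊔ Ideal.span {P * g}) :=
    homI_step (A := W.asIdeal) hW (hP.mul hg)
  refine cl_transport (u := g) (d := n) hup hg hH (homI_col hH hg) hH2 (le_col _ _)
    (hok.adm le_rfl (fun y hy => hy)) ?_ ?_ ?_
  · intro y hy
    obtain ⟨a, ha, b, hb, rfl⟩ := Submodule.mem_sup.1 hy
    obtain ⟨t, rfl⟩ := Ideal.mem_span_singleton'.1 hb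
    have : g * (a + t * P) = g * a + t * (P * g) := by ring
    rw [this]
    exact Submodule.add_mem_sup (Ideal.mul_mem_left _ _ ha) (Ideal.mem_span_singleton'.2 ⟨t, rfl⟩)
  · intro y hy hgy
    obtain ⟨a, ha, b, hb, hab⟩ := Submodule.mem_sup.1 hgy
    obtain ⟨t, rfl⟩ := Ideal.mem_span_singleton'.1 hb
    have h5 : g * (y - t * P) ∈ W.asIdeal := by
      have : g * (y - t * P) = a := by linear_combination -hab
      rw [this]
      exact ha
    have h6 := (W.2.mem_or_mem h5).resolve_left hgW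
    have : y = (y - t * P) + t * P := by ring
    rw [this]
    exact Submodule.add_mem_sup h6 (Ideal.mem_span_singleton'.2 ⟨t, rfl⟩)
  · intro y
    constructor
    · rintro ⟨hy1, hy2⟩
      obtain ⟨a, ha, b, hb, rfl⟩ := Submodule.mem_sup.1 hy2
      obtain ⟨t, rfl⟩ := Ideal.mem_span_singleton'.1 hb
      refine ⟨a, Ideal.mem_sup_left ha, t, ?_, by ring⟩
      rw [mem_col]
      have : g * t = (a + t * g) - a := by ring
      rw [this]
      exact Ideal.sub_mem _ hy1 (Ideal.mem_sup_left ha)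
    · rintro ⟨c, hc, x', hx', rfl⟩
      obtain ⟨a, ha, b, hb, rfl⟩ := Submodule.mem_sup.1 hc
      obtain ⟨t, rfl⟩ := Ideal.mem_span_singleton'.1 hb
      constructor
      · have : a + t * (P * g) + g * x' = (a + (t * g) * P) + g * x' := by ring
        rw [this]
        exact Ideal.add_mem _ (Submodule.add_mem_sup ha (Ideal.mem_span_singleton'.2 ⟨_, rfl⟩)) hx'
      · have : a + t * (P * g) + g * x' = a + (t * P + x') * g := by ring
        rw [this]
        exact Submodule.add_mem_sup ha (Ideal.mem_span_singleton'.2 ⟨_, rfl⟩)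

/-- The key identity: the sections by two forms commute, modulo rational equivalence on the
intersection. -/
theorem key_id {m : ℕ} {W : PrimeSpectrum (MvPolynomial σ K)} (hW : HomP W)
    (hd : dl K W = k + 2) {P g : MvPolynomial σ K} (hP : P.IsHomogeneous m)
    (hg : g.IsHomogeneous n) (hPW : P ∉ W.asIdeal) (hgW : g ∉ W.asIdeal) :
    Ph 𝕜 k g n (divCyc K 𝕜 (k + 1) W P) - Ph 𝕜 k P m (divCyc K 𝕜 (k + 1) W g) ∈
      RH 𝕜 k {T : PrimeSpectrum (MvPolynomial σ K) | W ≤ T ∧ P ∈ T.asIdeal ∧ g ∈ T.asIdeal} := by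
  set XX : Set (PrimeSpectrum (MvPolynomial σ K)) :=
    {T | W ≤ T ∧ P ∈ T.asIdeal ∧ g ∈ T.asIdeal} with hXX
  have hup : ∀ p ∈ XX, ∀ q, p ≤ q → q ∈ XX := fun p hp q hpq =>
    ⟨hp.1.trans hpq, hpq hp.2.1, hpq hp.2.2⟩
  have hdim : ∀ p : PrimeSpectrum (MvPolynomial σ K), W ≤ p → P ∈ p.asIdeal →
      dl K p ≤ k + 1 := by
    intro p hp hPp
    have h2 : W < p := by
      apply lt_of_le_of_ne hp
      rintro rfl
      exact hPW hPp
    have := dl_lt K h2
    omega
  have hok1 : Jok XX k g (W.asIdeal ⊔ Ideal.span {P}) := by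
    intro p hp hgp
    have h1 : W ≤ p := fun r hr => hp (Ideal.mem_sup_left hr)
    have h2 : P ∈ p.asIdeal := hp (Ideal.mem_sup_right (Ideal.mem_span_singleton_self P))
    exact ⟨⟨h1, h2, hgp⟩, hdim p h1 h2⟩
  have hok2 : Jok XX k P (W.asIdeal ⊔ Ideal.span {g}) := by
    intro p hp hPp
    have h1 : W ≤ p := fun r hr => hp (Ideal.mem_sup_left hr)
    have h2 : g ∈ p.asIdeal := hp (Ideal.mem_sup_right (Ideal.mem_span_singleton_self g))
    exact ⟨⟨h1, hPp, h2⟩, hdim p h1 hPp⟩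
  have e1 := eu_div (𝕜 := 𝕜) (s := 0) hup hg hW hd hP hPW hok1
  have e2 := eu_div (𝕜 := 𝕜) (s := 0) hup hP hW hd hg hgW hok2
  rw [← Submodule.Quotient.eq, ← e1, ← e2]
  unfold Eu
  rw [cl_swap hup hg hW hP hgW hok1, cl_swap hup hP hW hg hPW hok2, sup_right_comm,
    mul_comm g P, inf_comm (W.asIdeal ⊔ Ideal.span {g})]

end Pool.Agent.Bloch.Pen
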